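import Pool.Agent.Lib.MP_9ff0e7_co.Sum

/-!
Averaging over a block of apexes.
-/

set_option autoImplicit false
open scoped Classical

namespace Pool.Agent.Lib.MP_9ff0e7_co

/-- the good points for `x`. -/
noncomputable def Gd (ε h0 : ℝ) (f : ℝ × ℝ → Bool) (S Z : Finset (ℝ × ℝ)) (x : ℝ × ℝ) :
    Finset (ℝ × ℝ) :=
  (Low ε S h0).filter (fun p => f p = f x ∧
    ∃ q, Par 1 ε S x p q ∧ f q ≠ f x ∧ ∃ q', Par (-1) ε S x p q' ∧ f q' ≠ f x ∧
      (q ∈ Z ∨ q' ∈ Z))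

variable {S : Finset (ℝ × ℝ)} {ε : ℝ}

/-- number of `x` in the block for which both parents of `p` are low. -/
theorem both_low (hS : GP S) (f : ℝ × ℝ → Bool) (hH : Set.InjOn (Ht ε) S) (τ : ℝ) (hτ : 0 ≤ τ)
    (hT : ((Tri S f).card : ℝ) ≤ τ * S.card) (h0 : ℝ)
    (hL : (S.card : ℝ) ≤ 2 * (Low ε S h0).card) (Z : Finset (ℝ × ℝ)) (hZ : Z ⊆ S)
    (hZ0 : ∀ z ∈ Z, h0 ≤ Ht ε z) {p : ℝ × ℝ} (hp : p ∈ Low ε S h0) :
    ((Z.filter (fun x => f x = f p ∧ (∃ q ∈ Low ε S h0, Par 1 ε S x p q ∧ f q ≠ f p) ∧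
      (∃ q ∈ Low ε S h0, Par (-1) ε S x p q ∧ f q ≠ f p))).card : ℝ) ≤
      6 + 24 * τ + 2 * ee S f p := by
  have h1 := par_count hS f (s := 1) one_ne_zero hH h0 Z hZ hZ0 hp
  have h2 := disc_half hS f ε h0 hp (-1)
  have h3 := disc hS f ε h0 hH τ hτ hT hL (!(f p))
  have hcc : ∀ q : ℝ × ℝ, f q = !(f p) ↔ f q ≠ f p := by
    intro q; cases f q <;> cases f p <;> simp
  have hcc' : ∀ q : ℝ × ℝ, f q ≠ !(f p) ↔ f q = f p := by
    intro q; cases f q <;> cases f p <;> simp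
  simp only [hcc, hcc'] at h3
  set I := Low ε S h0 with hI
  have ne : ∀ q ∈ I, q ≠ p → Ht ε q ≠ Ht ε p := fun q hq hqp h =>
    hqp (hH (mem_Low.1 hq).1 (mem_Low.1 hp).1 h)
  -- same colour
  have c1 : (I.filter (fun q => f q = f p)).card ≤
      (I.filter (fun q => 0 < 1 * (Ht ε q - Ht ε p) ∧ f q = f p)).card +
      (I.filter (fun q => 0 < -1 * (Ht ε q - Ht ε p) ∧ f q = f p)).card + 1 := by
    have hsub : I.filter (fun q => f q = f p) ⊆
      insert p (I.filter (fun q => 0 < 1 * (Ht ε q - Ht ε p) ∧ f q = f p) ∪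
      I.filter (fun q => 0 < -1 * (Ht ε q - Ht ε p) ∧ f q = f p)) := by
      intro q hq
      obtain ⟨hq1, hq2⟩ := Finset.mem_filter.1 hq
      by_cases hqp : q = p
      · rw [hqp]; exact Finset.mem_insert_self _ _
      · apply Finset.mem_insert_of_mem
        rcases lt_or_gt_of_ne (ne q hq1 hqp) with hlt | hlt
        · exact Finset.mem_union_right _ (Finset.mem_filter.2 ⟨hq1, by linarith, hq2⟩)
        · exact Finset.mem_union_left _ (Finset.mem_filter.2 ⟨hq1, by linarith, hq2⟩)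
    have h4 := (Finset.card_le_card hsub).trans (Finset.card_insert_le _ _)
    exact h4.trans (Nat.add_le_add_right (Finset.card_union_le _ _) 1)
  -- opposite colour
  have c2 : (I.filter (fun q => 0 < 1 * (Ht ε q - Ht ε p) ∧ f q ≠ f p)).card +
      (I.filter (fun q => 0 < -1 * (Ht ε q - Ht ε p) ∧ f q ≠ f p)).card ≤
      (I.filter (fun q => f q ≠ f p)).card := by
    rw [← Finset.card_union_of_disjoint]
    · apply Finset.card_le_card
      intro q hq
      rcases Finset.mem_union.1 hq with hq | hq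
      · exact Finset.mem_filter.2 ⟨(Finset.mem_filter.1 hq).1, (Finset.mem_filter.1 hq).2.2⟩
      · exact Finset.mem_filter.2 ⟨(Finset.mem_filter.1 hq).1, (Finset.mem_filter.1 hq).2.2⟩
    · rw [Finset.disjoint_left]
      intro q hq hq'
      have a := (Finset.mem_filter.1 hq).2.1
      have b := (Finset.mem_filter.1 hq').2.1
      linarith
  have c3 : (Z.filter (fun x => f x = f p ∧ (∃ q ∈ I, Par 1 ε S x p q ∧ f q ≠ f p) ∧
      (∃ q ∈ I, Par (-1) ε S x p q ∧ f q ≠ f p))).card + (I.filter (fun q => f q = f p)).card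
      ≤ (I.filter (fun q => f q ≠ f p)).card + 2 * ee S f p + 3 := by omega
  have c4 : ((Z.filter (fun x => f x = f p ∧ (∃ q ∈ I, Par 1 ε S x p q ∧ f q ≠ f p) ∧
      (∃ q ∈ I, Par (-1) ε S x p q ∧ f q ≠ f p))).card : ℝ) +
      (I.filter (fun q => f q = f p)).card
      ≤ (I.filter (fun q => f q ≠ f p)).card + 2 * ee S f p + 3 := by exact_mod_cast c3
  linarith

theorem sum_good (hS : GP S) (f : ℝ × ℝ → Bool) (hH : Set.InjOn (Ht ε) S) (τ : ℝ) (hτ : 0 ≤ τ)
    (hT : ((Tri S f).card : ℝ) ≤ τ * S.card) (h0 : ℝ)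
    (hL : (S.card : ℝ) ≤ 2 * (Low ε S h0).card) (Z : Finset (ℝ × ℝ)) (hZ : Z ⊆ S)
    (hZ0 : ∀ z ∈ Z, h0 ≤ Ht ε z)
    (hcov : ∀ x ∈ Z, ∀ p ∈ S, h0 ≤ Ht ε p → Ht ε p < Ht ε x → p ∈ Z) :
    Z.card * (((Low ε S h0).card - (3 + 24 * τ)) / 2) ≤
      ∑ x ∈ Z, ((Gd ε h0 f S Z x).card : ℝ) + 2 * Z.card + 2 * ∑ x ∈ Z, (ee S f x : ℝ) +
      (S.card * (6 + 24 * τ) + 6 * (τ * S.card)) := by
  set I := Low ε S h0 with hI
  have hIP : ∀ x ∈ Z, I ⊆ Low ε S (Ht ε x) := by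
    intro x hx p hp
    obtain ⟨h1, h2⟩ := mem_Low.1 hp
    exact mem_Low.2 ⟨h1, lt_of_lt_of_le h2 (hZ0 x hx)⟩
  set R : (ℝ × ℝ) → (ℝ × ℝ) → Prop := fun x p =>
    f x = f p ∧ (∃ q ∈ I, Par 1 ε S x p q ∧ f q ≠ f p) ∧
      (∃ q ∈ I, Par (-1) ε S x p q ∧ f q ≠ f p) with hR
  have hper : ∀ x ∈ Z, ((I.card - (3 + 24 * τ)) / 2 : ℝ) ≤
      (Gd ε h0 f S Z x).card + 2 + 2 * ee S f x + ((I.filter (fun p => R x p)).card : ℝ) := by
    intro x hx
    have hxS := hZ hx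
    -- lower bound for the colour class
    have hd := disc hS f ε h0 hH τ hτ hT hL (!(f x))
    have hcc : ∀ q : ℝ × ℝ, f q = !(f x) ↔ f q ≠ f x := by
      intro q; cases f q <;> cases f x <;> simp
    have hcc' : ∀ q : ℝ × ℝ, f q ≠ !(f x) ↔ f q = f x := by
      intro q; cases f q <;> cases f x <;> simp
    simp only [hcc, hcc'] at hd
    rw [← hI] at hd
    have hsum : (I.filter (fun q => f q = f x)).card + (I.filter (fun q => f q ≠ f x)).card
      = I.card := Finset.card_filter_add_card_filter_not _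
    have hsum' : ((I.filter (fun q => f q = f x)).card : ℝ) +
      (I.filter (fun q => f q ≠ f x)).card = I.card := by exact_mod_cast hsum
    -- cover
    have hsub : I.filter (fun q => f q = f x) ⊆
      Gd ε h0 f S Z x ∪ (I.filter (fun p => ¬ ∃ q, Par 1 ε S x p q) ∪
      (I.filter (fun p => ¬ ∃ q, Par (-1) ε S x p q) ∪
      (I.filter (fun p => f p = f x ∧ ∃ q, Par 1 ε S x p q ∧ f q = f x) ∪
      (I.filter (fun p => f p = f x ∧ ∃ q, Par (-1) ε S x p q ∧ f q = f x) ∪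
      I.filter (fun p => R x p))))) := by
      intro p hp
      obtain ⟨hpI, hpf⟩ := Finset.mem_filter.1 hp
      simp only [Finset.mem_union]
      by_cases h1 : ∃ q, Par 1 ε S x p q
      swap
      · right; left; exact Finset.mem_filter.2 ⟨hpI, h1⟩
      by_cases h2 : ∃ q, Par (-1) ε S x p q
      swap
      · right; right; left; exact Finset.mem_filter.2 ⟨hpI, h2⟩
      obtain ⟨q, hq⟩ := h1
      obtain ⟨q', hq'⟩ := h2
      by_cases h3 : f q = f x
      · right; right; right; left; exact Finset.mem_filter.2 ⟨hpI, hpf, q, hq, h3⟩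
      by_cases h4 : f q' = f x
      · right; right; right; right; left; exact Finset.mem_filter.2 ⟨hpI, hpf, q', hq', h4⟩
      by_cases h5 : q ∈ Z ∨ q' ∈ Z
      · left; exact Finset.mem_filter.2 ⟨hpI, hpf, q, hq, h3, q', hq', h4, h5⟩
      · push Not at h5
        have low : ∀ y : ℝ × ℝ, y ∈ Low ε S (Ht ε x) → y ∉ Z → y ∈ I := by
          intro y hy hyZ
          obtain ⟨hyS, hyx⟩ := mem_Low.1 hy
          apply mem_Low.2 ⟨hyS, _⟩
          by_contra hcon; push Not at hcon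
          exact hyZ (hcov x hx y hyS hcon hyx)
        right; right; right; right; right
        refine Finset.mem_filter.2 ⟨hpI, hpf.symm, ⟨q, low q hq.1 h5.1, hq, ?_⟩,
          ⟨q', low q' hq'.1 h5.2, hq', ?_⟩⟩
        · rw [hpf]; exact h3
        · rw [hpf]; exact h4
    have k1 := no_par_card hS (s := 1) one_ne_zero hxS I (hIP x hx)
    have k2 := no_par_card hS (s := -1) (by norm_num) hxS I (hIP x hx)
    have k3 := mono_par_card hS f (s := 1) hxS I (hIP x hx)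
    have k4 := mono_par_card hS f (s := -1) hxS I (hIP x hx)
    have hc := Finset.card_le_card hsub
    have u1 := Finset.card_union_le (Gd ε h0 f S Z x)
      (I.filter (fun p => ¬ ∃ q, Par 1 ε S x p q) ∪
      (I.filter (fun p => ¬ ∃ q, Par (-1) ε S x p q) ∪
      (I.filter (fun p => f p = f x ∧ ∃ q, Par 1 ε S x p q ∧ f q = f x) ∪
      (I.filter (fun p => f p = f x ∧ ∃ q, Par (-1) ε S x p q ∧ f q = f x) ∪
      I.filter (fun p => R x p)))))
    have u2 := Finset.card_union_le (I.filter (fun p => ¬ ∃ q, Par 1 ε S x p q))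
      (I.filter (fun p => ¬ ∃ q, Par (-1) ε S x p q) ∪
      (I.filter (fun p => f p = f x ∧ ∃ q, Par 1 ε S x p q ∧ f q = f x) ∪
      (I.filter (fun p => f p = f x ∧ ∃ q, Par (-1) ε S x p q ∧ f q = f x) ∪
      I.filter (fun p => R x p))))
    have u3 := Finset.card_union_le (I.filter (fun p => ¬ ∃ q, Par (-1) ε S x p q))
      (I.filter (fun p => f p = f x ∧ ∃ q, Par 1 ε S x p q ∧ f q = f x) ∪
      (I.filter (fun p => f p = f x ∧ ∃ q, Par (-1) ε S x p q ∧ f q = f x) ∪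
      I.filter (fun p => R x p)))
    have u4 := Finset.card_union_le
      (I.filter (fun p => f p = f x ∧ ∃ q, Par 1 ε S x p q ∧ f q = f x))
      (I.filter (fun p => f p = f x ∧ ∃ q, Par (-1) ε S x p q ∧ f q = f x) ∪
      I.filter (fun p => R x p))
    have u5 := Finset.card_union_le
      (I.filter (fun p => f p = f x ∧ ∃ q, Par (-1) ε S x p q ∧ f q = f x))
      (I.filter (fun p => R x p))
    have htot : (I.filter (fun q => f q = f x)).card ≤ (Gd ε h0 f S Z x).card + 2 +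
        2 * ee S f x + (I.filter (fun p => R x p)).card := by omega
    have htot' : ((I.filter (fun q => f q = f x)).card : ℝ) ≤ (Gd ε h0 f S Z x).card + 2 +
        2 * ee S f x + (I.filter (fun p => R x p)).card := by exact_mod_cast htot
    linarith
  have hsum := Finset.sum_le_sum hper
  rw [Finset.sum_const, nsmul_eq_mul, Finset.sum_add_distrib, Finset.sum_add_distrib,
    Finset.sum_add_distrib, Finset.sum_const, nsmul_eq_mul, ← Finset.mul_sum] at hsum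
  -- double counting
  have hdc : ∑ x ∈ Z, (I.filter (fun p => R x p)).card =
      ∑ p ∈ I, (Z.filter (fun x => R x p)).card :=
    Finset.sum_card_bipartiteAbove_eq_sum_card_bipartiteBelow R
  have hdc' : ∑ x ∈ Z, ((I.filter (fun p => R x p)).card : ℝ) =
      ∑ p ∈ I, ((Z.filter (fun x => R x p)).card : ℝ) := by exact_mod_cast hdc
  have hbl : ∑ p ∈ I, ((Z.filter (fun x => R x p)).card : ℝ) ≤
      ∑ p ∈ I, (6 + 24 * τ + 2 * (ee S f p : ℝ)) :=
    Finset.sum_le_sum fun p hp => both_low hS f hH τ hτ hT h0 hL Z hZ hZ0 hp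
  rw [Finset.sum_add_distrib, Finset.sum_const, nsmul_eq_mul, ← Finset.mul_sum] at hbl
  have hIS : I ⊆ S := Finset.filter_subset _ _
  have hIc : (I.card : ℝ) ≤ S.card := by exact_mod_cast Finset.card_le_card hIS
  have hee : ∑ u ∈ I, (ee S f u : ℝ) ≤ 3 * (τ * S.card) := by
    have h2 : ∑ u ∈ I, ee S f u ≤ ∑ u ∈ S, ee S f u := Finset.sum_le_sum_of_subset hIS
    rw [sum_ee] at h2
    have h3 : ∑ u ∈ I, (ee S f u : ℝ) ≤ 3 * (Tri S f).card := by exact_mod_cast h2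
    linarith
  have hc : (I.card : ℝ) * (6 + 24 * τ) ≤ S.card * (6 + 24 * τ) :=
    mul_le_mul_of_nonneg_right hIc (by positivity)
  rw [hdc'] at hsum
  linarith

/-- the main inequality for one block. -/
theorem block_ineq (hS : GP S) (f : ℝ × ℝ → Bool) (hH : Set.InjOn (Ht ε) S) (τ : ℝ) (hτ : 0 ≤ τ)
    (hT : ((Tri S f).card : ℝ) ≤ τ * S.card) (h0 : ℝ)
    (hL : (S.card : ℝ) ≤ 2 * (Low ε S h0).card) (Z : Finset (ℝ × ℝ)) (hZ : Z ⊆ S)
    (hZ0 : ∀ z ∈ Z, h0 ≤ Ht ε z)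
    (hcov : ∀ x ∈ Z, ∀ p ∈ S, h0 ≤ Ht ε p → Ht ε p < Ht ε x → p ∈ Z)
    (hZn : Z.Nonempty) (β A : ℝ) (hA : Z.card * A ≤
      Z.card * (((Low ε S h0).card - (3 + 24 * τ)) / 2) - 2 * Z.card
        - (2 + β) * ∑ x ∈ Z, (ee S f x : ℝ) - (S.card * (6 + 24 * τ) + 6 * (τ * S.card)))
    (l : ℝ) (hl : 0 ≤ l) :
    ∃ e : ℝ, 0 ≤ e ∧ A + β * e ≤ S.card ∧
      l / 2 * ((A + β * e) / 2 - 3 * (e + ∑ x ∈ Z, (ee S f x : ℝ)) - Z.card)
        - Z.card * (l ^ 2 / 4) ≤ 3 * (τ * S.card) + S.card * (6 + 24 * τ + 2 * e) := by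
  have hsg := sum_good hS f hH τ hτ hT h0 hL Z hZ hZ0 hcov
  have hex : ∃ x ∈ Z, A ≤ (Gd ε h0 f S Z x).card - β * ee S f x := by
    apply Finset.exists_le_of_sum_le hZn
    rw [Finset.sum_const, nsmul_eq_mul, Finset.sum_sub_distrib, ← Finset.mul_sum]
    linarith
  obtain ⟨x, hx, hxA⟩ := hex
  have hxS := hZ hx
  have hIP : Low ε S h0 ⊆ Low ε S (Ht ε x) := by
    intro p hp
    obtain ⟨h1, h2⟩ := mem_Low.1 hp
    exact mem_Low.2 ⟨h1, lt_of_lt_of_le h2 (hZ0 x hx)⟩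
  have hLx : (S.card : ℝ) ≤ 2 * (Low ε S (Ht ε x)).card := by
    have : ((Low ε S h0).card : ℝ) ≤ (Low ε S (Ht ε x)).card := by
      exact_mod_cast Finset.card_le_card hIP
    linarith
  have hGS : (Gd ε h0 f S Z x).card ≤ S.card := by
    apply Finset.card_le_card
    exact (Finset.filter_subset _ _).trans (Finset.filter_subset _ _)
  have hGS' : ((Gd ε h0 f S Z x).card : ℝ) ≤ S.card := by exact_mod_cast hGS
  refine ⟨ee S f x, by positivity, by linarith, ?_⟩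
  set Zb := Z.filter (fun z => f z ≠ f x) with hZb
  have hZb1 : ∀ z ∈ Zb, z ∈ S ∧ f z ≠ f x := fun z hz =>
    ⟨hZ (Finset.mem_filter.1 hz).1, (Finset.mem_filter.1 hz).2⟩
  have hZbc : (Zb.card : ℝ) ≤ Z.card := by exact_mod_cast Finset.card_le_card (Finset.filter_subset _ _)
  have hZbe : ∑ z ∈ Zb, (ee S f z : ℝ) ≤ ∑ z ∈ Z, (ee S f z : ℝ) :=
    Finset.sum_le_sum_of_subset_of_nonneg (Finset.filter_subset _ _) (fun _ _ _ => by positivity)
  set G : ℝ → Finset (ℝ × ℝ) := fun s =>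
    (Low ε S h0).filter (fun p => ∃ z ∈ Zb, Par s ε S x p z) with hG
  have hGG : Gd ε h0 f S Z x ⊆ G 1 ∪ G (-1) := by
    intro p hp
    obtain ⟨h1, h2, q, hq, hqf, q', hq', hqf', h3⟩ := Finset.mem_filter.1 hp
    rcases h3 with h3 | h3
    · exact Finset.mem_union_left _ (Finset.mem_filter.2
        ⟨h1, q, Finset.mem_filter.2 ⟨h3, hqf⟩, hq⟩)
    · exact Finset.mem_union_right _ (Finset.mem_filter.2
        ⟨h1, q', Finset.mem_filter.2 ⟨h3, hqf'⟩, hq'⟩)
  have hcard : (Gd ε h0 f S Z x).card ≤ (G 1).card + (G (-1)).card :=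
    (Finset.card_le_card hGG).trans (Finset.card_union_le _ _)
  have hcard' : ((Gd ε h0 f S Z x).card : ℝ) ≤ (G 1).card + (G (-1)).card := by
    exact_mod_cast hcard
  have hs : ∃ s : ℝ, s ≠ 0 ∧ (A + β * ee S f x) / 2 ≤ (G s).card := by
    rcases le_total ((G 1).card : ℝ) ((G (-1)).card : ℝ) with h | h
    · exact ⟨-1, by norm_num, by linarith⟩
    · exact ⟨1, one_ne_zero, by linarith⟩
  obtain ⟨s, hs0, hsG⟩ := hs
  have ht := towers hS f hs0 hxS hH τ hτ hT hLx l hl Zb hZb1 (G s) (by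
    intro p hp
    obtain ⟨h1, h2⟩ := Finset.mem_filter.1 hp
    exact ⟨hIP h1, h2⟩)
  have h1 : l / 2 * ((A + β * ee S f x) / 2 - 3 * (ee S f x + ∑ x ∈ Z, (ee S f x : ℝ)) - Z.card) ≤
      l / 2 * ((G s).card - 3 * (ee S f x + ∑ z ∈ Zb, (ee S f z : ℝ)) - Zb.card) := by
    apply mul_le_mul_of_nonneg_left _ (by linarith)
    linarith
  have h2 : (Zb.card : ℝ) * (l ^ 2 / 4) ≤ Z.card * (l ^ 2 / 4) :=
    mul_le_mul_of_nonneg_right hZbc (by positivity)
  linarith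

end Pool.Agent.Lib.MP_9ff0e7_co
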