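import Pool.Agent.Lib.MP_9ff0e7_co.Avg

/-!
Choice of the block, and the final numerical contradiction.
-/

set_option autoImplicit false
open scoped Classical

namespace Pool.Agent.Lib.MP_9ff0e7_co

/-- rank of a point by height. -/
noncomputable def rk (ε : ℝ) (S : Finset (ℝ × ℝ)) (p : ℝ × ℝ) : ℕ :=
  (S.filter (fun q => Ht ε q < Ht ε p)).card

section rank

variable {S : Finset (ℝ × ℝ)} {ε : ℝ}

theorem rk_lt {p q : ℝ × ℝ} (hp : p ∈ S) (h : Ht ε p < Ht ε q) : rk ε S p < rk ε S q := by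
  apply Finset.card_lt_card
  rw [Finset.ssubset_iff_of_subset]
  · exact ⟨p, Finset.mem_filter.2 ⟨hp, h⟩, fun h' => lt_irrefl _ (Finset.mem_filter.1 h').2⟩
  · intro y hy
    obtain ⟨h1, h2⟩ := Finset.mem_filter.1 hy
    exact Finset.mem_filter.2 ⟨h1, h2.trans h⟩

theorem rk_le {p q : ℝ × ℝ} (h : Ht ε p ≤ Ht ε q) : rk ε S p ≤ rk ε S q := by
  apply Finset.card_le_card
  intro y hy
  obtain ⟨h1, h2⟩ := Finset.mem_filter.1 hy
  exact Finset.mem_filter.2 ⟨h1, lt_of_lt_of_le h2 h⟩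

theorem rk_inj (hH : Set.InjOn (Ht ε) S) : Set.InjOn (rk ε S) S := by
  intro p hp q hq h
  by_contra hne
  have h1 : Ht ε p ≠ Ht ε q := fun h => hne (hH hp hq h)
  rcases lt_or_gt_of_ne h1 with h2 | h2
  · have := rk_lt hp h2; omega
  · have := rk_lt hq h2; omega

theorem rk_lt_card {p : ℝ × ℝ} (hp : p ∈ S) : rk ε S p < S.card := by
  apply Finset.card_lt_card
  rw [Finset.ssubset_iff_of_subset (Finset.filter_subset _ _)]
  exact ⟨p, hp, fun h' => lt_irrefl _ (Finset.mem_filter.1 h').2⟩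

theorem rk_image (hH : Set.InjOn (Ht ε) S) : S.image (rk ε S) = Finset.range S.card := by
  apply Finset.eq_of_subset_of_card_le
  · intro k hk
    obtain ⟨p, hp, rfl⟩ := Finset.mem_image.1 hk
    exact Finset.mem_range.2 (rk_lt_card hp)
  · rw [Finset.card_range, Finset.card_image_of_injOn (rk_inj hH)]

/-- blocks of consecutive ranks. -/
noncomputable def Bl (ε : ℝ) (S : Finset (ℝ × ℝ)) (K i : ℕ) : Finset (ℝ × ℝ) :=
  S.filter (fun p => rk ε S p / K = i)

theorem Bl_card (hH : Set.InjOn (Ht ε) S) {K i : ℕ} (hK : 0 < K) (hi : (i + 1) * K ≤ S.card) :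
    (Bl ε S K i).card = K := by
  have h1 : (Bl ε S K i).image (rk ε S) = Finset.Ico (i * K) ((i + 1) * K) := by
    ext k
    rw [Finset.mem_image, Finset.mem_Ico]
    constructor
    · rintro ⟨p, hp, rfl⟩
      have := (Finset.mem_filter.1 hp).2
      rw [Nat.div_eq_iff hK] at this
      constructor
      · omega
      · have := this.2
        rw [add_mul]; omega
    · rintro ⟨h1, h2⟩
      have hk : k ∈ S.image (rk ε S) := by
        rw [rk_image hH]; exact Finset.mem_range.2 (lt_of_lt_of_le h2 hi)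
      obtain ⟨p, hp, rfl⟩ := Finset.mem_image.1 hk
      refine ⟨p, Finset.mem_filter.2 ⟨hp, ?_⟩, rfl⟩
      exact Nat.div_eq_of_lt_le h1 h2
  have h2 := congrArg Finset.card h1
  rw [Finset.card_image_of_injOn, Nat.card_Ico] at h2
  · rw [h2, add_mul]; omega
  · intro a ha b hb hab
    exact rk_inj hH (Finset.mem_filter.1 ha).1 (Finset.mem_filter.1 hb).1 hab

theorem exists_block (hH : Set.InjOn (Ht ε) S) (f : ℝ × ℝ → Bool) {K : ℕ} (hK : 0 < K)
    (hn : 8 * K ≤ S.card) :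
    ∃ Z : Finset (ℝ × ℝ), ∃ h0 : ℝ, Z ⊆ S ∧ Z.card = K ∧ (∀ z ∈ Z, h0 ≤ Ht ε z) ∧
      (∀ x ∈ Z, ∀ p ∈ S, h0 ≤ Ht ε p → Ht ε p < Ht ε x → p ∈ Z) ∧
      S.card ≤ 2 * (Low ε S h0).card ∧
      S.card * ∑ z ∈ Z, ee S f z ≤ 12 * K * (Tri S f).card := by
  set n := S.card with hnn
  set i0 := n / (2 * K) + 1 with hi0
  set i1 := n / K with hi1
  have hi1K : i1 * K ≤ n := Nat.div_mul_le_self n K
  have hi1K' : n < (i1 + 1) * K := by
    have := Nat.lt_mul_div_succ n hK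
    rw [← hi1] at this; linarith
  have ha : n / (2 * K) * (2 * K) ≤ n := Nat.div_mul_le_self n (2 * K)
  have hb : n < (n / (2 * K) + 1) * (2 * K) := by
    have := Nat.lt_mul_div_succ n (b := 2 * K) (by omega)
    linarith
  -- number of blocks
  set J := Finset.Ico i0 i1 with hJ
  have hJc : J.card = i1 - i0 := Nat.card_Ico _ _
  have hnum : n ≤ 4 * K * J.card := by
    rw [hJc]
    have h1 : (i0 - 1) * (2 * K) ≤ n := by rw [hi0]; simpa using ha
    -- i1 K > n - K, i0 K ≤ n/2 + K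
    have h2 : i0 * (2 * K) ≤ n + 2 * K := by rw [hi0, add_mul]; omega
    have h3 : n < i1 * K + K := by rw [add_mul] at hi1K'; omega
    have h4 : i0 ≤ i1 := by
      by_contra hcon; push Not at hcon
      have h5 : (i1 + 1) * K ≤ i0 * K := Nat.mul_le_mul_right K hcon
      have h6 : i0 * (2 * K) = 2 * (i0 * K) := by ring
      rw [add_mul] at h5; omega
    obtain ⟨d, hd⟩ := Nat.exists_eq_add_of_le h4
    rw [hd, Nat.add_sub_cancel_left]
    have h5 : i1 * K = i0 * K + d * K := by rw [hd]; ring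
    have h6 : i0 * (2 * K) = 2 * (i0 * K) := by ring
    have h7 : 4 * K * d = 4 * (d * K) := by ring
    rw [h7]; omega
  have hsum : ∑ i ∈ J, ∑ z ∈ Bl ε S K i, ee S f z ≤ 3 * (Tri S f).card := by
    rw [← sum_ee, ← Finset.sum_biUnion]
    · apply Finset.sum_le_sum_of_subset
      intro q hq
      obtain ⟨i, hi, hq⟩ := Finset.mem_biUnion.1 hq
      exact (Finset.mem_filter.1 hq).1
    · intro i hi j hj hij
      refine Finset.disjoint_left.2 fun q hq hq' => ?_
      exact hij ((Finset.mem_filter.1 hq).2.symm.trans (Finset.mem_filter.1 hq').2)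
  have hJne : J.Nonempty := by
    rw [← Finset.card_pos]
    by_contra hcon
    have : J.card = 0 := by omega
    rw [this] at hnum; omega
  obtain ⟨i, hi, himin⟩ := Finset.exists_min_image J (fun i => ∑ z ∈ Bl ε S K i, ee S f z) hJne
  have h1 : J.card * ∑ z ∈ Bl ε S K i, ee S f z ≤ 3 * (Tri S f).card := by
    refine le_trans ?_ hsum
    rw [← smul_eq_mul]
    exact Finset.card_nsmul_le_sum _ _ _ himin
  obtain ⟨hi2, hi3⟩ := Finset.mem_Ico.1 hi
  have hcard : (Bl ε S K i).card = K := by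
    apply Bl_card hH hK
    exact le_trans (Nat.mul_le_mul_right K hi3) hi1K
  have hne : (Bl ε S K i).Nonempty := by rw [← Finset.card_pos, hcard]; exact hK
  obtain ⟨z0, hz0, hzmin⟩ := Finset.exists_min_image _ (Ht ε) hne
  obtain ⟨hz0S, hz0r⟩ := Finset.mem_filter.1 hz0
  refine ⟨Bl ε S K i, Ht ε z0, Finset.filter_subset _ _, hcard, hzmin, ?_, ?_, ?_⟩
  · intro x hx p hp h2 h3
    refine Finset.mem_filter.2 ⟨hp, ?_⟩
    have a1 : rk ε S z0 ≤ rk ε S p := rk_le h2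
    have a2 : rk ε S p ≤ rk ε S x := rk_le h3.le
    have a3 := (Finset.mem_filter.1 hx).2
    apply le_antisymm
    · rw [← a3]; exact Nat.div_le_div_right a2
    · rw [← hz0r]; exact Nat.div_le_div_right a1
  · have h2 : (Low ε S (Ht ε z0)).card = rk ε S z0 := rfl
    rw [h2]
    have h3 : i * K ≤ rk ε S z0 := by
      rw [← hz0r]; exact Nat.div_mul_le_self _ _
    have h4 : i0 * K ≤ i * K := Nat.mul_le_mul_right K hi2
    have h5 : n < 2 * (i0 * K) := by rw [hi0]; linarith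
    omega
  · calc n * ∑ z ∈ Bl ε S K i, ee S f z ≤ 4 * K * J.card * ∑ z ∈ Bl ε S K i, ee S f z :=
          Nat.mul_le_mul_right _ hnum
      _ = 4 * K * (J.card * ∑ z ∈ Bl ε S K i, ee S f z) := by ring
      _ ≤ 4 * K * (3 * (Tri S f).card) := Nat.mul_le_mul_left _ h1
      _ = 12 * K * (Tri S f).card := by ring

end rank

/-- The numerical contradiction. `w = √n`. -/
theorem numeric {w K E e : ℝ} (hw : 10000 ≤ w) (hK1 : w ≤ K) (hK2 : K ≤ w + 1) 
    (hE0 : 0 ≤ E) (hE : E ≤ 12 * K * (w / 10 ^ 7)) (he : 0 ≤ e)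
    (h1 : w ^ 2 / 5 + (8000 * w) * e ≤ w ^ 2)
    (h2 : (8 / 100 * w) / 2 * ((w ^ 2 / 5 + (8000 * w) * e) / 2 - 3 * (e + E) - K)
        - K * ((8 / 100 * w) ^ 2 / 4) ≤
        3 * ((w / 10 ^ 7) * w ^ 2) + w ^ 2 * (6 + 24 * (w / 10 ^ 7) + 2 * e)) : False := by
  have hw0 : 0 < w := by linarith
  have he2 : e ≤ w / 10000 := by
    have : (8000 * w) * e ≤ w ^ 2 * (8 / 10) := by linarith
    have h3 : w * (8000 * e) ≤ w * (w * (8 / 10)) := by nlinarith
    have := le_of_mul_le_mul_left h3 hw0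
    linarith
  have hE2 : E ≤ w ^ 2 / 10 ^ 5 := by
    have h3 : K ≤ 2 * w := by linarith
    have h4 : 12 * K * (w / 10 ^ 7) ≤ 12 * (2 * w) * (w / 10 ^ 7) := by
      apply mul_le_mul_of_nonneg_right _ (by positivity)
      linarith
    nlinarith
  have hin : w ^ 2 * (99 / 1000) ≤ (w ^ 2 / 5 + (8000 * w) * e) / 2 - 3 * (e + E) - K := by
    have h3 : 0 ≤ (8000 * w) * e := by positivity
    have h4 : w * 10000 ≤ w ^ 2 := by nlinarith
    nlinarith
  have h5 : (8 / 100 * w) / 2 * (w ^ 2 * (99 / 1000)) ≤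
      (8 / 100 * w) / 2 * ((w ^ 2 / 5 + (8000 * w) * e) / 2 - 3 * (e + E) - K) :=
    mul_le_mul_of_nonneg_left hin (by positivity)
  have h6 : K * ((8 / 100 * w) ^ 2 / 4) ≤ (w + 1) * ((8 / 100 * w) ^ 2 / 4) :=
    mul_le_mul_of_nonneg_right hK2 (by positivity)
  have h7 : w ^ 2 * (6 + 24 * (w / 10 ^ 7) + 2 * e) ≤
      w ^ 2 * (6 + 24 * (w / 10 ^ 7) + 2 * (w / 10000)) :=
    mul_le_mul_of_nonneg_left (by linarith) (by positivity)
  have h8 : w ^ 2 * 10000 ≤ w ^ 3 := by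
    have : w ^ 3 = w ^ 2 * w := by ring
    rw [this]; exact mul_le_mul_of_nonneg_left hw (by positivity)
  have h9 : 0 < w ^ 3 := by positivity
  nlinarith

/-- The theorem in terms of the square root. -/
theorem main_sqrt (S : Finset (ℝ × ℝ)) (hS : GP S) (ε : ℝ) (hH : Set.InjOn (Ht ε) S)
    (f : ℝ × ℝ → Bool) (hn : 100000000 ≤ S.card) :
    (Real.sqrt S.card / 10 ^ 7) * S.card ≤ (Tri S f).card := by
  by_contra hcon
  push Not at hcon
  set n := S.card with hnn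
  set w := Real.sqrt n with hw
  have hw2 : w ^ 2 = n := Real.sq_sqrt (by positivity)
  have hn' : (100000000 : ℝ) ≤ n := by exact_mod_cast hn
  have hw0 : 0 ≤ w := Real.sqrt_nonneg _
  have hw4 : 10000 ≤ w := by
    by_contra h; push Not at h
    nlinarith
  set K := ⌈w⌉₊ with hK
  have hK1 : w ≤ K := Nat.le_ceil w
  have hK2 : (K : ℝ) ≤ w + 1 := (Nat.ceil_lt_add_one hw0).le
  have hKpos : 0 < K := by
    have : (0 : ℝ) < K := by linarith
    exact_mod_cast this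
  have h8 : 8 * K ≤ S.card := by
    have : (8 * K : ℝ) ≤ n := by nlinarith
    exact_mod_cast this
  obtain ⟨Z, h0, hZS, hZc, hZ0, hcov, hL, hE⟩ := exists_block hH f hKpos h8
  have hτ : 0 ≤ w / 10 ^ 7 := by positivity
  have hL' : (S.card : ℝ) ≤ 2 * (Low ε S h0).card := by exact_mod_cast hL
  have hZn : Z.Nonempty := by rw [← Finset.card_pos, hZc]; exact hKpos
  have hTr : ((Tri S f).card : ℝ) ≤ (w / 10 ^ 7) * S.card := hcon.le
  have hE' : (n : ℝ) * ∑ z ∈ Z, (ee S f z : ℝ) ≤ 12 * K * (Tri S f).card := by exact_mod_cast hE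
  set E := ∑ z ∈ Z, (ee S f z : ℝ) with hEdef
  have hE0 : 0 ≤ E := Finset.sum_nonneg fun _ _ => by positivity
  have hn0 : (0 : ℝ) < n := by linarith
  have hEb : E ≤ 12 * K * (w / 10 ^ 7) := by
    have h1 : (n : ℝ) * E ≤ n * (12 * K * (w / 10 ^ 7)) := by
      have : 12 * (K : ℝ) * (Tri S f).card ≤ 12 * K * ((w / 10 ^ 7) * n) :=
        mul_le_mul_of_nonneg_left hTr (by positivity)
      linarith
    exact le_of_mul_le_mul_left h1 hn0
  have hIle : ((Low ε S h0).card : ℝ) ≥ w ^ 2 / 2 := by rw [hw2]; linarith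
  obtain ⟨e, he0, he1, he2⟩ := block_ineq hS f hH (w / 10 ^ 7) hτ hTr h0 hL' Z hZS hZ0 hcov hZn
    (8000 * w) (w ^ 2 / 5) (by
      rw [hZc, ← hnn, ← hw2, ← hEdef]
      have b1 : (2 + 8000 * w) * E ≤ (2 + 8000 * w) * (12 * K * (w / 10 ^ 7)) :=
        mul_le_mul_of_nonneg_left hEb (by positivity)
      have b2 : (K : ℝ) * ((w ^ 2 / 2 - (3 + 24 * (w / 10 ^ 7))) / 2) ≤
          K * (((Low ε S h0).card - (3 + 24 * (w / 10 ^ 7))) / 2) :=
        mul_le_mul_of_nonneg_left (by linarith) (by positivity)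
      have b3 : w ^ 2 * (6 + 24 * (w / 10 ^ 7)) + 6 * ((w / 10 ^ 7) * w ^ 2) ≤
          K * (6 * w + 30 * w ^ 2 / 10 ^ 7) := by
        have : w * (6 * w + 30 * w ^ 2 / 10 ^ 7) ≤ K * (6 * w + 30 * w ^ 2 / 10 ^ 7) :=
          mul_le_mul_of_nonneg_right hK1 (by positivity)
        linarith
      have b4 : (K : ℝ) * (w ^ 2 / 5) ≤ K * ((w ^ 2 / 2 - (3 + 24 * (w / 10 ^ 7))) / 2 - 2
          - (2 + 8000 * w) * (12 * (w / 10 ^ 7)) - (6 * w + 30 * w ^ 2 / 10 ^ 7)) := by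
        apply mul_le_mul_of_nonneg_left _ (by positivity)
        nlinarith
      linarith) (8 / 100 * w) (by positivity)
  rw [hZc, ← hnn, ← hw2, ← hEdef] at he2
  rw [← hnn, ← hw2] at he1
  exact numeric hw4 hK1 hK2 hE0 hEb he0 he1 he2

end Pool.Agent.Lib.MP_9ff0e7_co
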