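import Pool.Agent.Lib.MP_9ff0e7_co.Tower

/-!
The concave chain of a tower and the stars at its points.
-/

set_option autoImplicit false
open scoped Classical

namespace Pool.Agent.Lib.MP_9ff0e7_co

section chain

variable {S : Finset (ℝ × ℝ)} {s ε : ℝ} {x : ℝ × ℝ} {H : Finset (ℝ × ℝ)}

/-- neighbours in `H` of a point `v` that is not in `H`. -/
theorem nbrs (hS : GP S) (hs : s ≠ 0) (hx : x ∈ S) (hH : H ⊆ Low ε S (Ht ε x))
    {v : ℝ × ℝ} (hv : v ∈ Low ε S (Ht ε x)) (hvH : v ∉ H)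
    {h1 h2 : ℝ × ℝ} (hh1 : h1 ∈ H) (hh2 : h2 ∈ H) (hv1 : ord s ε x h1 ≤ ord s ε x v)
    (hv2 : ord s ε x v ≤ ord s ε x h2) :
    ∃ p q, Adj s ε x H p q ∧ ord s ε x p < ord s ε x v ∧ ord s ε x v < ord s ε x q ∧
      ord s ε x h1 ≤ ord s ε x p ∧ ord s ε x q ≤ ord s ε x h2 := by
  have hinj := ord_inj_below hS (ε := ε) hs hx
  have hne : ∀ h ∈ H, ord s ε x h ≠ ord s ε x v := by
    intro h hh heq
    have := hinj (hH hh) hv heq
    rw [this] at hh; exact hvH hh
  have n1 : (H.filter (fun h => ord s ε x h < ord s ε x v)).Nonempty :=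
    ⟨h1, Finset.mem_filter.2 ⟨hh1, lt_of_le_of_ne hv1 (hne h1 hh1)⟩⟩
  have n2 : (H.filter (fun h => ord s ε x v < ord s ε x h)).Nonempty :=
    ⟨h2, Finset.mem_filter.2 ⟨hh2, lt_of_le_of_ne hv2 (hne h2 hh2).symm⟩⟩
  obtain ⟨p, hp, hpmax⟩ := Finset.exists_max_image _ (ord s ε x) n1
  obtain ⟨q, hq, hqmin⟩ := Finset.exists_min_image _ (ord s ε x) n2
  obtain ⟨hpH, hpv⟩ := Finset.mem_filter.1 hp
  obtain ⟨hqH, hvq⟩ := Finset.mem_filter.1 hq
  refine ⟨p, q, ⟨hpH, hqH, hpv.trans hvq, ?_⟩, hpv, hvq, ?_, ?_⟩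
  · rintro c hc ⟨hc1, hc2⟩
    rcases lt_or_gt_of_ne (hne c hc) with h | h
    · have := hpmax c (Finset.mem_filter.2 ⟨hc, h⟩); linarith
    · have := hqmin c (Finset.mem_filter.2 ⟨hc, h⟩); linarith
  · exact hpmax h1 (Finset.mem_filter.2 ⟨hh1, lt_of_le_of_ne hv1 (hne h1 hh1)⟩)
  · exact hqmin h2 (Finset.mem_filter.2 ⟨hh2, lt_of_le_of_ne hv2 (hne h2 hh2).symm⟩)

/-- (a') -/
theorem cap1 (hS : GP S) (hs : s ≠ 0) (hx : x ∈ S) (hH : H ⊆ Low ε S (Ht ε x))
    (hvis : ∀ a b, Adj s ε x H a b → Vis s ε x (Low ε S (Ht ε x)) a b)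
    (hcap : ∀ a ∈ H, ∀ b ∈ H, ∀ c ∈ H, ord s ε x a < ord s ε x b → ord s ε x b < ord s ε x c →
      D s a b c < 0)
    {v h k h1 : ℝ × ℝ} (hv : v ∈ Low ε S (Ht ε x)) (hh : h ∈ H) (hk : k ∈ H) (hh1 : h1 ∈ H)
    (h1v : ord s ε x h1 ≤ ord s ε x v) (hvh : ord s ε x v < ord s ε x h)
    (hhk : ord s ε x h < ord s ε x k) : D s v h k < 0 := by
  by_cases hvH : v ∈ H
  · exact hcap v hvH h hh k hk hvh hhk
  obtain ⟨p, q, hadj, hpv, hvq, -, hqh⟩ := nbrs hS hs hx hH hv hvH hh1 hh h1v hvh.le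
  have hpq := hvis p q hadj v hv hpv hvq
  have hpP := hH hadj.1
  have hqP := hH hadj.2.1
  rcases lt_or_eq_of_le hqh with hlt | heq
  · have c1 := hcap p hadj.1 q hadj.2.1 h hh hadj.2.2.1 hlt
    have c2 : D s v q h < 0 := (sgC hpP hv hqP (hH hh) hpv hvq hlt).xz' c1 hpq
    have c3 := hcap q hadj.2.1 h hh k hk hlt hhk
    exact (sgC hv hqP (hH hh) (hH hk) hvq hlt hhk).yz' c3 c2
  · have hqe : q = h := ord_inj_below hS (ε := ε) hs hx hqP (hH hh) heq
    rw [hqe] at hpq hvq hadj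
    have c1 := hcap p hadj.1 h hh k hk hadj.2.2.1 hhk
    exact (sgC hpP hv (hH hh) (hH hk) hpv hvq hhk).xz' c1 hpq

/-- the cap property of the points of the chain against all points of the island. -/
theorem cap2 (hS : GP S) (hs : s ≠ 0) (hx : x ∈ S) (hH : H ⊆ Low ε S (Ht ε x))
    (hvis : ∀ a b, Adj s ε x H a b → Vis s ε x (Low ε S (Ht ε x)) a b)
    (hcap : ∀ a ∈ H, ∀ b ∈ H, ∀ c ∈ H, ord s ε x a < ord s ε x b → ord s ε x b < ord s ε x c →
      D s a b c < 0)
    {v h w h1 h2 : ℝ × ℝ} (hv : v ∈ Low ε S (Ht ε x)) (hw : w ∈ Low ε S (Ht ε x)) (hh : h ∈ H)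
    (hh1 : h1 ∈ H) (hh2 : h2 ∈ H)
    (h1v : ord s ε x h1 ≤ ord s ε x v) (hvh : ord s ε x v < ord s ε x h)
    (hhw : ord s ε x h < ord s ε x w) (hw2 : ord s ε x w ≤ ord s ε x h2) : D s v h w < 0 := by
  by_cases hwH : w ∈ H
  · exact cap1 hS hs hx hH hvis hcap hv hh hwH hh1 h1v hvh hhw
  obtain ⟨k, k', hadj, hkw, hwk', hhk, -⟩ := nbrs hS hs hx hH hw hwH hh hh2 hhw.le hw2
  have hkk := hvis k k' hadj w hw hkw hwk'
  have hkP := hH hadj.1
  have hkP' := hH hadj.2.1
  rcases lt_or_eq_of_le hhk with hlt | heq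
  · have c1 := hcap h hh k hadj.1 k' hadj.2.1 hlt hadj.2.2.1
    have c2 : D s h k w < 0 := (sgB (hH hh) hkP hw hkP' hlt hkw hwk').xy' c1 hkk
    have c3 := cap1 hS hs hx hH hvis hcap hv hh hadj.1 hh1 h1v hvh hlt
    exact (sgB hv (hH hh) hkP hw hvh hlt hkw).yz' c2 c3
  · have hke : h = k := ord_inj_below hS (ε := ε) hs hx (hH hh) hkP heq
    rw [← hke] at hkk hadj
    have c1 := cap1 hS hs hx hH hvis hcap hv hh hadj.2.1 hh1 h1v hvh hadj.2.2.1
    exact (sgB hv (hH hh) hw hkP' hvh hhw hwk').xy' c1 hkk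

/-- the star at a point of the chain. -/
theorem chain_star (hS : GP S) (f : ℝ × ℝ → Bool) (hs : s ≠ 0) (hx : x ∈ S)
    (hHt : Set.InjOn (Ht ε) S) (τ : ℝ) (hτ : 0 ≤ τ)
    (hT : ((Tri S f).card : ℝ) ≤ τ * S.card)
    (hL : (S.card : ℝ) ≤ 2 * (Low ε S (Ht ε x)).card)
    (hH : H ⊆ Low ε S (Ht ε x))
    (hvis : ∀ a b, Adj s ε x H a b → Vis s ε x (Low ε S (Ht ε x)) a b)
    (hcap : ∀ a ∈ H, ∀ b ∈ H, ∀ c ∈ H, ord s ε x a < ord s ε x b → ord s ε x b < ord s ε x c →
      D s a b c < 0)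
    {u : ℝ × ℝ} (hu : u ∈ H) :
    ((H.filter (fun h => ord s ε x u < ord s ε x h ∧ f h ≠ f u)).card : ℝ) ≤
      ee S f u + (6 + 24 * τ + 2 * ee S f x) := by
  set P := Low ε S (Ht ε x) with hP
  set g := ord s ε x with hg
  have hinj := ord_inj_below hS (ε := ε) hs hx
  obtain ⟨m, hm, hmax⟩ := Finset.exists_max_image H g ⟨u, hu⟩
  have huP := hH hu
  have hmP := hH hm
  have huS := (mem_Low.1 huP).1
  have hxu : 0 < Ht ε x - Ht ε u := sub_pos.2 (mem_Low.1 huP).2
  set W := P.filter (fun q => g u < g q ∧ g q ≤ g m) with hW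
  set A := W.filter (fun q => f q = f u) with hA
  set B := W.filter (fun q => f q ≠ f u ∧ q ∉ H) with hB
  -- order around u for the points right of u
  have hWr : ∀ q ∈ W, q ∈ P ∧ 0 < D s x u q ∧ g u < g q ∧ g q ≤ g m := by
    intro q hq
    obtain ⟨h1, h2, h3⟩ := Finset.mem_filter.1 hq
    exact ⟨h1, (ord_lt_below huP h1).1 h2, h2, h3⟩
  set lam : ℝ × ℝ → ℝ := fun q => (Ht ε q - Ht ε u) / D s x u q with hlam
  have hlamlt : ∀ q r : ℝ × ℝ, 0 < D s x u q → 0 < D s x u r →
      (lam q < lam r ↔ 0 < D s u q r) := by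
    intro q r hq hr
    have h2 := plucker s ε x q r u
    have e1 : D s u x q = - D s x u q := D_swap _ _ _ _
    have e2 : D s u x r = - D s x u r := D_swap _ _ _ _
    rw [e1, e2] at h2
    simp only [hlam]
    rw [div_lt_div_iff₀ hq hr]
    have h3 : D s u q r * (Ht ε x - Ht ε u) =
      (Ht ε r - Ht ε u) * D s x u q - (Ht ε q - Ht ε u) * D s x u r := by linarith
    constructor
    · intro h
      have h4 : 0 < D s u q r * (Ht ε x - Ht ε u) := by rw [h3]; linarith
      exact (mul_pos_iff_of_pos_right hxu).1 h4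
    · intro h
      have := mul_pos h hxu
      linarith
  have hstar : A.card ≤ B.card + ee S f u + 1 := by
    apply star hS huS A B lam
    · intro a ha
      obtain ⟨h1, h2⟩ := Finset.mem_filter.1 ha
      obtain ⟨h3, h4, h5, h6⟩ := hWr a h1
      exact ⟨(mem_Low.1 h3).1, by rintro rfl; exact lt_irrefl _ h5, h2⟩
    · intro a ha b hb hab
      by_contra hne
      obtain ⟨a1, a2, a3, a4⟩ := hWr a (Finset.mem_filter.1 ha).1
      obtain ⟨b1, b2, b3, b4⟩ := hWr b (Finset.mem_filter.1 hb).1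
      have h1 : D s u a b ≠ 0 := hS.ne hs huS (mem_Low.1 a1).1 (mem_Low.1 b1).1
        (by rintro rfl; exact lt_irrefl _ a3) (by rintro rfl; exact lt_irrefl _ b3) hne
      rcases lt_or_gt_of_ne h1 with h2 | h2
      · have h3 : 0 < D s u b a := by rw [D_swap']; linarith
        have := (hlamlt b a b2 a2).2 h3
        linarith
      · have := (hlamlt a b a2 b2).2 h2
        linarith
    · intro a ha a' ha' hlt hc hb q hq hin
      obtain ⟨haW, haf⟩ := Finset.mem_filter.1 ha
      obtain ⟨haW', haf'⟩ := Finset.mem_filter.1 ha'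
      obtain ⟨a1, a2, a3, a4⟩ := hWr a haW
      obtain ⟨b1, b2, b3, b4⟩ := hWr a' haW'
      have hD : 0 < D s u a a' := (hlamlt a a' a2 b2).1 hlt
      obtain ⟨i1, i2, i3⟩ := hin.pos hD
      have e1 : D s q a a' = D s a a' q := D_cyc _ _ _ _
      have e2 : D s u q a' = D s a' u q := (D_cyc _ _ _ _).symm
      have hqH : Ht ε q < Ht ε x :=
        hin.ht_lt (mem_Low.1 huP).2.le (mem_Low.1 a1).2.le (mem_Low.1 b1).2
      have hqP : q ∈ P := mem_Low.2 ⟨hq, hqH⟩
      -- right of u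
      have hXq : 0 < D s x u q := by
        have hb1 := bary s x u u a a' q
        rw [e1, e2, D_abb] at hb1
        have : 0 < D s u a a' * D s x u q := by
          rw [hb1]
          have := mul_pos i3 a2
          have := mul_pos i1 b2
          linarith
        exact (mul_pos_iff_of_pos_left hD).1 this
      have guq : g u < g q := (ord_lt_below huP hqP).2 hXq
      -- left of m
      have ndne : ∀ {v : ℝ × ℝ}, v ∈ P → g v ≤ g m → D s x m v ≤ 0 := by
        intro v hv hvm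
        by_contra hcon; push Not at hcon
        have := (ord_lt_below hmP hv).2 hcon
        linarith
      have hmu : D s x m u < 0 := by
        have : 0 < D s x u m := (ord_lt_below huP hmP).1 (lt_of_lt_of_le a3 a4)
        rw [D_swap']; linarith
      have hqm : g q < g m := by
        have hb1 := bary s x m u a a' q
        rw [e1, e2] at hb1
        have h5 : D s u a a' * D s x m q < 0 := by
          rw [hb1]
          have := mul_neg_of_pos_of_neg i2 hmu
          have := mul_nonneg i3.le (neg_nonneg.2 (ndne a1 a4))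
          have := mul_nonneg i1.le (neg_nonneg.2 (ndne b1 b4))
          linarith
        have h6 : D s x m q < 0 := by
          by_contra hcon; push Not at hcon
          have := mul_nonneg hD.le hcon; linarith
        apply (ord_lt_below hqP hmP).2
        rw [D_swap']; linarith
      have hqW : q ∈ W := Finset.mem_filter.2 ⟨hqP, guq, hqm.le⟩
      have l1 : lam a < lam q := (hlamlt a q a2 hXq).2 i1
      have l2 : lam q < lam a' := (hlamlt q a' hXq b2).2 (by rw [e2]; exact i3)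
      by_cases hf : f q = f u
      · exact hc q (Finset.mem_filter.2 ⟨hqW, hf⟩) ⟨l1, l2⟩
      by_cases hqH' : q ∈ H
      swap
      · exact hb q (Finset.mem_filter.2 ⟨hqW, hf, hqH'⟩) ⟨l1, l2⟩
      -- contradiction with the cap property
      have hcp : ∀ v w : ℝ × ℝ, v ∈ P → w ∈ P → g u ≤ g v → g v < g q → g q < g w → g w ≤ g m →
          D s v q w < 0 := by
        intro v w hv hw h1 h2 h3 h4
        exact cap2 hS hs hx hH hvis hcap hv hw hqH' hu hm h1 h2 h3 h4
      have hqa : q ≠ a := by rintro rfl; exact lt_irrefl _ l1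
      have hqa' : q ≠ a' := by rintro rfl; exact lt_irrefl _ l2
      have ga : g q ≠ g a := fun h => hqa (hinj hqP a1 h)
      have ga' : g q ≠ g a' := fun h => hqa' (hinj hqP b1 h)
      rcases lt_or_gt_of_ne ga' with h1 | h1
      · have := hcp u a' huP b1 le_rfl guq h1 b4
        rw [e2] at this; linarith
      · rcases lt_or_gt_of_ne ga with h2 | h2
        · have := hcp a' a b1 a1 b3.le h1 h2 a4
          have e3 : D s a a' q = D s a' q a := D_cyc _ _ _ _
          rw [← e3] at this; linarith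
        · have hb1 := bary s x q u a a' q
          rw [e1, e2, D_abb] at hb1
          have q1 : D s x q u < 0 := by rw [D_swap']; linarith
          have q2 : D s x q a < 0 := by
            have := (ord_lt_below a1 hqP).1 h2
            rw [D_swap']; linarith
          have q3 : D s x q a' < 0 := by
            have := (ord_lt_below b1 hqP).1 h1
            rw [D_swap']; linarith
          have := mul_neg_of_pos_of_neg i2 q1
          have := mul_neg_of_pos_of_neg i3 q2
          have := mul_neg_of_pos_of_neg i1 q3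
          linarith
  -- the count
  have hwd := win_disc hS f hs hx hHt τ hτ hT hL (g u) (g m) (hmax u hu) (!(f u))
  rw [← hP, ← hg, ← hW] at hwd
  have hcc : ∀ q : ℝ × ℝ, f q = !(f u) ↔ f q ≠ f u := by
    intro q; cases f q <;> cases f u <;> simp
  have hcc' : ∀ q : ℝ × ℝ, f q ≠ !(f u) ↔ f q = f u := by
    intro q; cases f q <;> cases f u <;> simp
  simp only [hcc, hcc'] at hwd
  have hsub : (H.filter (fun h => g u < g h ∧ f h ≠ f u)) ∪ B ⊆ W.filter (fun q => f q ≠ f u) := by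
    intro q hq
    rcases Finset.mem_union.1 hq with hq | hq
    · obtain ⟨h1, h2, h3⟩ := Finset.mem_filter.1 hq
      exact Finset.mem_filter.2 ⟨Finset.mem_filter.2 ⟨hH h1, h2, hmax q h1⟩, h3⟩
    · obtain ⟨h1, h2, h3⟩ := Finset.mem_filter.1 hq
      exact Finset.mem_filter.2 ⟨h1, h2⟩
  have hdis : Disjoint (H.filter (fun h => g u < g h ∧ f h ≠ f u)) B := by
    rw [Finset.disjoint_left]
    intro q hq hq'
    exact (Finset.mem_filter.1 hq').2.2 (Finset.mem_filter.1 hq).1
  have hcard := Finset.card_le_card hsub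
  rw [Finset.card_union_of_disjoint hdis] at hcard
  have hcard' : ((H.filter (fun h => g u < g h ∧ f h ≠ f u)).card : ℝ) + B.card ≤
    (W.filter (fun q => f q ≠ f u)).card := by exact_mod_cast hcard
  have hstar' : (A.card : ℝ) ≤ B.card + ee S f u + 1 := by exact_mod_cast hstar
  linarith

end chain

end Pool.Agent.Lib.MP_9ff0e7_co
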