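import Pool.Agent.Lib.MP_9ff0e7_co.Star

/-!
Discrepancy bounds for islands and windows.
-/

set_option autoImplicit false
open scoped Classical

namespace Pool.Agent.Lib.MP_9ff0e7_co

theorem disc_pt {S : Finset (ℝ × ℝ)} (hS : GP S) (f : ℝ × ℝ → Bool) (ε h0 : ℝ)
    (hH : Set.InjOn (Ht ε) S) {p : ℝ × ℝ} (hp : p ∈ Low ε S h0) :
    ((Low ε S h0).filter (fun q => f q = f p)).card ≤
    ((Low ε S h0).filter (fun q => f q ≠ f p)).card + 2 * ee S f p + 3 := by
  have h1 := disc_half hS f ε h0 hp 1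
  have h2 := disc_half hS f ε h0 hp (-1)
  have h3 : (Low ε S h0).filter (fun q => f q = f p) ⊆
      insert p ((Low ε S h0).filter (fun q => 0 < 1 * (Ht ε q - Ht ε p) ∧ f q = f p) ∪
      (Low ε S h0).filter (fun q => 0 < -1 * (Ht ε q - Ht ε p) ∧ f q = f p)) := by
    intro q hq
    obtain ⟨hq1, hq2⟩ := Finset.mem_filter.1 hq
    by_cases hqp : q = p
    · rw [hqp]; exact Finset.mem_insert_self _ _
    · apply Finset.mem_insert_of_mem
      have hne : Ht ε q ≠ Ht ε p := fun h => hqp (hH (mem_Low.1 hq1).1 (mem_Low.1 hp).1 h)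
      rcases lt_or_gt_of_ne hne with hlt | hlt
      · apply Finset.mem_union_right
        exact Finset.mem_filter.2 ⟨hq1, by linarith, hq2⟩
      · apply Finset.mem_union_left
        exact Finset.mem_filter.2 ⟨hq1, by linarith, hq2⟩
  have h4 := (Finset.card_le_card h3).trans (Finset.card_insert_le _ _)
  have h5 := h4.trans (Nat.add_le_add_right (Finset.card_union_le _ _) 1)
  have h6 : Disjoint ((Low ε S h0).filter (fun q => 0 < 1 * (Ht ε q - Ht ε p) ∧ f q ≠ f p))
      ((Low ε S h0).filter (fun q => 0 < -1 * (Ht ε q - Ht ε p) ∧ f q ≠ f p)) := by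
    rw [Finset.disjoint_left]
    intro q hq hq'
    have a := (Finset.mem_filter.1 hq).2.1
    have b := (Finset.mem_filter.1 hq').2.1
    linarith
  have h7 : ((Low ε S h0).filter (fun q => 0 < 1 * (Ht ε q - Ht ε p) ∧ f q ≠ f p)) ∪
      ((Low ε S h0).filter (fun q => 0 < -1 * (Ht ε q - Ht ε p) ∧ f q ≠ f p)) ⊆
      (Low ε S h0).filter (fun q => f q ≠ f p) := by
    intro q hq
    rcases Finset.mem_union.1 hq with hq | hq
    · exact Finset.mem_filter.2 ⟨(Finset.mem_filter.1 hq).1, (Finset.mem_filter.1 hq).2.2⟩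
    · exact Finset.mem_filter.2 ⟨(Finset.mem_filter.1 hq).1, (Finset.mem_filter.1 hq).2.2⟩
  have h8 := Finset.card_le_card h7
  rw [Finset.card_union_of_disjoint h6] at h8
  omega

theorem sum_ee (S : Finset (ℝ × ℝ)) (f : ℝ × ℝ → Bool) :
    ∑ p ∈ S, ee S f p = 3 * (Tri S f).card := by
  have h := Finset.sum_card_bipartiteAbove_eq_sum_card_bipartiteBelow
    (s := S) (t := Tri S f) (fun p T => p ∈ T)
  unfold Finset.bipartiteAbove Finset.bipartiteBelow at h
  have h2 : ∀ T ∈ Tri S f, (S.filter (fun p => p ∈ T)).card = 3 := by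
    intro T hT
    have := Finset.mem_powersetCard.1 (Finset.mem_filter.1 hT).1
    rw [← this.2]
    congr 1
    ext y
    rw [Finset.mem_filter]
    exact ⟨fun h => h.2, fun h => ⟨this.1 h, h⟩⟩
  rw [Finset.sum_congr rfl h2] at h
  unfold ee
  rw [h, Finset.sum_const, smul_eq_mul, mul_comm]

/-- discrepancy of a big island. -/
theorem disc {S : Finset (ℝ × ℝ)} (hS : GP S) (f : ℝ × ℝ → Bool) (ε h0 : ℝ)
    (hH : Set.InjOn (Ht ε) S) (τ : ℝ) (hτ : 0 ≤ τ) (hT : ((Tri S f).card : ℝ) ≤ τ * S.card)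
    (hL : (S.card : ℝ) ≤ 2 * (Low ε S h0).card) (c : Bool) :
    (((Low ε S h0).filter (fun q => f q = c)).card : ℝ) ≤
    ((Low ε S h0).filter (fun q => f q ≠ c)).card + 3 + 24 * τ := by
  set r := ((Low ε S h0).filter (fun q => f q = c)).card with hr
  set b := ((Low ε S h0).filter (fun q => f q ≠ c)).card with hb
  have hrb : r + b = (Low ε S h0).card := Finset.card_filter_add_card_filter_not _
  have h1 : ∀ p ∈ (Low ε S h0).filter (fun q => f q = c), r ≤ b + 2 * ee S f p + 3 := by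
    intro p hp
    obtain ⟨hp1, hp2⟩ := Finset.mem_filter.1 hp
    have := disc_pt hS f ε h0 hH hp1
    rw [hp2] at this
    exact this
  have h2 := Finset.sum_le_sum h1
  rw [Finset.sum_const, smul_eq_mul, ← hr] at h2
  have h3 : ∑ p ∈ (Low ε S h0).filter (fun q => f q = c), (b + 2 * ee S f p + 3)
      = r * b + 2 * (∑ p ∈ (Low ε S h0).filter (fun q => f q = c), ee S f p) + 3 * r := by
    rw [Finset.sum_add_distrib, Finset.sum_add_distrib, Finset.sum_const, Finset.sum_const,
      smul_eq_mul, smul_eq_mul, ← hr, Finset.mul_sum]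
    ring
  have h4 : ∑ p ∈ (Low ε S h0).filter (fun q => f q = c), ee S f p ≤ 3 * (Tri S f).card := by
    rw [← sum_ee]
    apply Finset.sum_le_sum_of_subset
    intro q hq
    exact (mem_Low.1 (Finset.mem_filter.1 hq).1).1
  rw [h3] at h2
  have h5 : r * r ≤ r * b + 6 * (Tri S f).card + 3 * r := by nlinarith
  have h5' : (r : ℝ) * r ≤ r * b + 6 * (Tri S f).card + 3 * r := by exact_mod_cast h5
  by_contra hcon
  push Not at hcon
  have hrb' : (r : ℝ) + b = (Low ε S h0).card := by exact_mod_cast hrb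
  have hn : (S.card : ℝ) ≤ 4 * r := by linarith
  have hb0 : (0 : ℝ) ≤ b := by positivity
  have hr0 : (0 : ℝ) < r := by linarith
  have h7 : (r : ℝ) * (r - b - 3 - 24 * τ) ≤ 0 := by nlinarith
  have h8 : 0 < (r : ℝ) * (r - b - 3 - 24 * τ) := mul_pos hr0 (by linarith)
  linarith

/-- product of heights below `x`. -/
theorem below_prod {ε : ℝ} {S : Finset (ℝ × ℝ)} {x a b : ℝ × ℝ} (ha : a ∈ Low ε S (Ht ε x))
    (hb : b ∈ Low ε S (Ht ε x)) : 0 < (Ht ε a - Ht ε x) * (Ht ε b - Ht ε x) :=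
  mul_pos_of_neg_of_neg (sub_neg.2 (mem_Low.1 ha).2) (sub_neg.2 (mem_Low.1 hb).2)

theorem ord_lt_below {s ε : ℝ} {S : Finset (ℝ × ℝ)} {x a b : ℝ × ℝ}
    (ha : a ∈ Low ε S (Ht ε x)) (hb : b ∈ Low ε S (Ht ε x)) :
    ord s ε x a < ord s ε x b ↔ 0 < D s x a b := ord_lt s ε x a b (below_prod ha hb)

theorem ne_of_below {ε : ℝ} {S : Finset (ℝ × ℝ)} {x a : ℝ × ℝ}
    (ha : a ∈ Low ε S (Ht ε x)) : a ≠ x := by
  rintro rfl; exact lt_irrefl _ (mem_Low.1 ha).2

theorem ord_inj_below {S : Finset (ℝ × ℝ)} (hS : GP S) {s ε : ℝ} (hs : s ≠ 0) {x : ℝ × ℝ}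
    (hx : x ∈ S) : Set.InjOn (ord s ε x) (Low ε S (Ht ε x)) :=
  ord_inj hS hs hx (fun _ ha => (mem_Low.1 ha).1) (fun _ ha _ hb => below_prod ha hb)

theorem win_star {S : Finset (ℝ × ℝ)} (hS : GP S) (f : ℝ × ℝ → Bool) {s ε : ℝ} (hs : s ≠ 0)
    {x : ℝ × ℝ} (hx : x ∈ S) (W : Finset (ℝ × ℝ)) (hW : W ⊆ Low ε S (Ht ε x))
    (hc : ∀ a ∈ W, ∀ a' ∈ W, ∀ q ∈ Low ε S (Ht ε x), ord s ε x a < ord s ε x q →
      ord s ε x q < ord s ε x a' → q ∈ W) :
    (W.filter (fun q => f q = f x)).card ≤ (W.filter (fun q => f q ≠ f x)).card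
      + ee S f x + 1 := by
  apply star hS hx _ _ (ord s ε x)
  · intro a ha
    obtain ⟨ha1, ha2⟩ := Finset.mem_filter.1 ha
    exact ⟨(mem_Low.1 (hW ha1)).1, ne_of_below (hW ha1), ha2⟩
  · intro a ha b hb hab
    exact ord_inj_below hS hs hx (hW (Finset.mem_filter.1 ha).1) (hW (Finset.mem_filter.1 hb).1) hab
  · intro a ha a' ha' hlt h1 h2 q hq hin
    obtain ⟨ha1, ha2⟩ := Finset.mem_filter.1 ha
    obtain ⟨ha1', ha2'⟩ := Finset.mem_filter.1 ha'
    obtain ⟨-, -, k3, k4⟩ := hin.ord_between (below_prod (hW ha1) (hW ha1')) hlt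
    have hqH : Ht ε q < Ht ε x :=
      hin.ht_lt le_rfl (mem_Low.1 (hW ha1)).2.le (mem_Low.1 (hW ha1')).2
    have hqL : q ∈ Low ε S (Ht ε x) := mem_Low.2 ⟨hq, hqH⟩
    have hqW := hc a ha1 a' ha1' q hqL k3 k4
    by_cases hf : f q = f x
    · exact h1 q (Finset.mem_filter.2 ⟨hqW, hf⟩) ⟨k3, k4⟩
    · exact h2 q (Finset.mem_filter.2 ⟨hqW, hf⟩) ⟨k3, k4⟩

theorem win_disc {S : Finset (ℝ × ℝ)} (hS : GP S) (f : ℝ × ℝ → Bool) {s ε : ℝ} (hs : s ≠ 0)
    {x : ℝ × ℝ} (hx : x ∈ S) (hH : Set.InjOn (Ht ε) S) (τ : ℝ) (hτ : 0 ≤ τ)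
    (hT : ((Tri S f).card : ℝ) ≤ τ * S.card)
    (hL : (S.card : ℝ) ≤ 2 * (Low ε S (Ht ε x)).card) (lo hi : ℝ) (hlohi : lo ≤ hi) (c : Bool) :
    ((((Low ε S (Ht ε x)).filter (fun q => lo < ord s ε x q ∧ ord s ε x q ≤ hi)).filter
      (fun q => f q = c)).card : ℝ) ≤
    (((Low ε S (Ht ε x)).filter (fun q => lo < ord s ε x q ∧ ord s ε x q ≤ hi)).filter
      (fun q => f q ≠ c)).card + (5 + 24 * τ + 2 * ee S f x) := by
  set P := Low ε S (Ht ε x) with hP
  set g := ord s ε x with hg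
  set W := P.filter (fun q => lo < g q ∧ g q ≤ hi) with hW
  set Wl := P.filter (fun q => g q ≤ lo) with hWl
  set Wr := P.filter (fun q => hi < g q) with hWr
  have w1 := win_star hS f hs hx W (Finset.filter_subset _ _) (by
    intro a ha a' ha' q hq h1 h2
    have ha := (Finset.mem_filter.1 ha).2
    have ha' := (Finset.mem_filter.1 ha').2
    exact Finset.mem_filter.2 ⟨hq, by linarith [ha.1], by linarith [ha'.2]⟩)
  have w2 := win_star hS f hs hx Wl (Finset.filter_subset _ _) (by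
    intro a ha a' ha' q hq h1 h2
    have ha' := (Finset.mem_filter.1 ha').2
    exact Finset.mem_filter.2 ⟨hq, by linarith⟩)
  have w3 := win_star hS f hs hx Wr (Finset.filter_subset _ _) (by
    intro a ha a' ha' q hq h1 h2
    have ha := (Finset.mem_filter.1 ha).2
    exact Finset.mem_filter.2 ⟨hq, by linarith⟩)
  by_cases hcx : c = f x
  · rw [hcx]
    have : ((W.filter (fun q => f q = f x)).card : ℝ) ≤ (W.filter (fun q => f q ≠ f x)).card
      + ee S f x + 1 := by exact_mod_cast w1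
    have : (0 : ℝ) ≤ ee S f x := by positivity
    linarith
  · have hd := disc hS f ε (Ht ε x) hH τ hτ hT hL c
    rw [← hP] at hd
    have hcc : ∀ q : ℝ × ℝ, f q = c ↔ f q ≠ f x := by
      intro q
      constructor
      · intro h h2; exact hcx (h.symm.trans h2)
      · intro h; revert h hcx; cases f q <;> cases c <;> cases f x <;> simp
    have hcc' : ∀ q : ℝ × ℝ, f q ≠ c ↔ f q = f x := by
      intro q; rw [Ne, hcc q]; simp
    simp only [hcc, hcc'] at hd ⊢
    have part : ∀ (p : ℝ × ℝ → Prop) [DecidablePred p], (P.filter p).card =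
        (W.filter p).card + (Wl.filter p).card + (Wr.filter p).card := by
      intro p _
      have d1 : Disjoint (W.filter p) (Wl.filter p) := by
        rw [Finset.disjoint_left]
        intro q hq hq'
        have a := (Finset.mem_filter.1 (Finset.mem_filter.1 hq).1).2
        have b := (Finset.mem_filter.1 (Finset.mem_filter.1 hq').1).2
        linarith [a.1]
      have d2 : Disjoint (W.filter p ∪ Wl.filter p) (Wr.filter p) := by
        rw [Finset.disjoint_left]
        intro q hq hq'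
        have b := (Finset.mem_filter.1 (Finset.mem_filter.1 hq').1).2
        rcases Finset.mem_union.1 hq with hq | hq
        · have a := (Finset.mem_filter.1 (Finset.mem_filter.1 hq).1).2
          linarith [a.2]
        · have a := (Finset.mem_filter.1 (Finset.mem_filter.1 hq).1).2
          linarith
      rw [← Finset.card_union_of_disjoint d1, ← Finset.card_union_of_disjoint d2]
      congr 1
      ext q
      simp only [Finset.mem_union, Finset.mem_filter, hW, hWl, hWr]
      constructor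
      · rintro ⟨h1, h2⟩
        rcases le_or_gt (g q) lo with h3 | h3
        · left; right; exact ⟨⟨h1, h3⟩, h2⟩
        · rcases le_or_gt (g q) hi with h4 | h4
          · left; left; exact ⟨⟨h1, h3, h4⟩, h2⟩
          · right; exact ⟨⟨h1, h4⟩, h2⟩
      · rintro ((h | h) | h)
        · exact ⟨h.1.1, h.2⟩
        · exact ⟨h.1.1, h.2⟩
        · exact ⟨h.1.1, h.2⟩
    have p1 := part (fun q => f q = f x)
    have p2 := part (fun q => f q ≠ f x)
    have p1' : ((P.filter (fun q => f q = f x)).card : ℝ) =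
        (W.filter (fun q => f q = f x)).card + (Wl.filter (fun q => f q = f x)).card
        + (Wr.filter (fun q => f q = f x)).card := by exact_mod_cast p1
    have p2' : ((P.filter (fun q => f q ≠ f x)).card : ℝ) =
        (W.filter (fun q => f q ≠ f x)).card + (Wl.filter (fun q => f q ≠ f x)).card
        + (Wr.filter (fun q => f q ≠ f x)).card := by exact_mod_cast p2
    have w2' : ((Wl.filter (fun q => f q = f x)).card : ℝ) ≤
        (Wl.filter (fun q => f q ≠ f x)).card + ee S f x + 1 := by exact_mod_cast w2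
    have w3' : ((Wr.filter (fun q => f q = f x)).card : ℝ) ≤
        (Wr.filter (fun q => f q ≠ f x)).card + ee S f x + 1 := by exact_mod_cast w3
    linarith

end Pool.Agent.Lib.MP_9ff0e7_co
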