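import Mathlib

/-!
Geometry for the monochromatic empty triangle theorem: orientation determinants, heights,
the triangles that count, and the star lemma.
-/

set_option autoImplicit false
open scoped Classical

namespace Pool.Agent.Lib.MP_9ff0e7_co

/-- orientation determinant with a sign parameter `s`. -/
noncomputable def D (s : ℝ) (a b c : ℝ × ℝ) : ℝ :=
  s * ((b.1 - a.1) * (c.2 - a.2) - (b.2 - a.2) * (c.1 - a.1))

/-- generic height function. -/
noncomputable def Ht (ε : ℝ) (p : ℝ × ℝ) : ℝ := p.2 + ε * p.1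

/-- order function of the rays from `p`. -/
noncomputable def ord (s ε : ℝ) (p q : ℝ × ℝ) : ℝ := -s * ((q.1 - p.1) / (Ht ε q - Ht ε p))

/-- `q` lies strictly inside the triangle `a b c`. -/
def In (a b c q : ℝ × ℝ) : Prop :=
  0 < D 1 a b c * D 1 a b q ∧ 0 < D 1 a b c * D 1 b c q ∧ 0 < D 1 a b c * D 1 c a q

/-- the monochromatic empty triangles. -/
noncomputable def Tri (S : Finset (ℝ × ℝ)) (f : ℝ × ℝ → Bool) : Finset (Finset (ℝ × ℝ)) :=
  (S.powersetCard 3).filter (fun T : Finset (ℝ × ℝ) =>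
              (∃ b : Bool, ∀ x ∈ T, f x = b) ∧
              Disjoint (convexHull ℝ ((↑T : Set (ℝ × ℝ))))
                ((↑(S \ T) : Set (ℝ × ℝ))))

/-- the number of monochromatic empty triangles at `p`. -/
noncomputable def ee (S : Finset (ℝ × ℝ)) (f : ℝ × ℝ → Bool) (p : ℝ × ℝ) : ℕ :=
  ((Tri S f).filter (fun T => p ∈ T)).card

/-- general position. -/
def GP (S : Finset (ℝ × ℝ)) : Prop :=
  ∀ a ∈ S, ∀ b ∈ S, ∀ c ∈ S, a ≠ b → a ≠ c → b ≠ c → D 1 a b c ≠ 0

section ident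

variable (s ε : ℝ) (a b c d p u q r h x : ℝ × ℝ)

theorem D_cyc : D s a b c = D s b c a := by unfold D; ring
theorem D_swap : D s b a c = - D s a b c := by unfold D; ring
theorem D_swap' : D s a c b = - D s a b c := by unfold D; ring
theorem D_neg : D (-s) a b c = - D s a b c := by unfold D; ring
theorem D_one : D s a b c = s * D 1 a b c := by unfold D; ring
theorem D_aac : D s a a c = 0 := by unfold D; ring
theorem D_abb : D s a b b = 0 := by unfold D; ring
theorem D_aba : D s a b a = 0 := by unfold D; ring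

theorem plucker : D s p a b * (Ht ε c - Ht ε p) + D s p b c * (Ht ε a - Ht ε p)
    = D s p a c * (Ht ε b - Ht ε p) := by unfold D Ht; ring

theorem bary : D s u q r * D s a c h
    = D s h q r * D s a c u + D s u h r * D s a c q + D s u q h * D s a c r := by
  unfold D; ring

theorem baryH : D s u q r * Ht ε h
    = D s h q r * Ht ε u + D s u h r * Ht ε q + D s u q h * Ht ε r := by
  unfold D Ht; ring

theorem baryS : D s u q r = D s h q r + D s u h r + D s u q h := by
  unfold D; ring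

/-- signotope identities in the order around `x`. -/
theorem I_a : D s x a c * D s a b d = D s x a b * D s a c d + D s x a d * D s a b c := by
  unfold D; ring
theorem I_b : D s x b c * D s a b d = D s x a b * D s b c d + D s x b d * D s a b c := by
  unfold D; ring
theorem I_c : D s x b c * D s a c d = D s x a c * D s b c d + D s x c d * D s a b c := by
  unfold D; ring
theorem I_d : D s x b d * D s a c d = D s x a d * D s b c d + D s x c d * D s a b d := by
  unfold D; ring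

end ident

/-- sign bookkeeping for a relation `A x = B y + C z` with positive coefficients. -/
theorem comb {A B C x y z : ℝ} (h : A * x = B * y + C * z) (hA : 0 < A) (hB : 0 < B)
    (hC : 0 < C) :
    (0 < y → 0 < z → 0 < x) ∧ (y < 0 → z < 0 → x < 0) ∧ (0 < x → z < 0 → 0 < y) ∧
    (x < 0 → 0 < z → y < 0) ∧ (0 < x → y < 0 → 0 < z) ∧ (x < 0 → 0 < y → z < 0) := by
  refine ⟨fun h1 h2 => ?_, fun h1 h2 => ?_, fun h1 h2 => ?_, fun h1 h2 => ?_,
    fun h1 h2 => ?_, fun h1 h2 => ?_⟩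
  · by_contra hx; push Not at hx
    nlinarith [mul_pos hB h1, mul_pos hC h2, mul_nonneg hA.le (neg_nonneg.2 hx)]
  · by_contra hx; push Not at hx
    nlinarith [mul_pos hB (neg_pos.2 h1), mul_pos hC (neg_pos.2 h2), mul_nonneg hA.le hx]
  · by_contra hx; push Not at hx
    nlinarith [mul_nonneg hB.le (neg_nonneg.2 hx), mul_pos hC (neg_pos.2 h2), mul_pos hA h1]
  · by_contra hx; push Not at hx
    nlinarith [mul_nonneg hB.le hx, mul_pos hC h2, mul_pos hA (neg_pos.2 h1)]
  · by_contra hx; push Not at hx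
    nlinarith [mul_nonneg hC.le (neg_nonneg.2 hx), mul_pos hB (neg_pos.2 h2), mul_pos hA h1]
  · by_contra hx; push Not at hx
    nlinarith [mul_nonneg hC.le hx, mul_pos hB h2, mul_pos hA (neg_pos.2 h1)]

theorem ord_eq (s ε : ℝ) (p a b : ℝ × ℝ) (ha : Ht ε a ≠ Ht ε p) (hb : Ht ε b ≠ Ht ε p) :
    D s p a b = ((Ht ε a - Ht ε p) * (Ht ε b - Ht ε p)) * (ord s ε p b - ord s ε p a) := by
  have ha' : Ht ε a - Ht ε p ≠ 0 := sub_ne_zero.2 ha
  have hb' : Ht ε b - Ht ε p ≠ 0 := sub_ne_zero.2 hb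
  unfold ord
  have : D s p a b = s * ((a.1 - p.1) * (Ht ε b - Ht ε p) - (b.1 - p.1) * (Ht ε a - Ht ε p)) := by
    unfold D Ht; ring
  rw [this]
  field_simp
  ring

theorem ord_lt (s ε : ℝ) (p a b : ℝ × ℝ) (h : 0 < (Ht ε a - Ht ε p) * (Ht ε b - Ht ε p)) :
    ord s ε p a < ord s ε p b ↔ 0 < D s p a b := by
  have ha : Ht ε a ≠ Ht ε p := by
    intro h1; rw [h1] at h; simp at h
  have hb : Ht ε b ≠ Ht ε p := by
    intro h1; rw [h1] at h; simp at h
  rw [ord_eq s ε p a b ha hb, mul_pos_iff_of_pos_left h, sub_pos]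

theorem GP.ne {S : Finset (ℝ × ℝ)} (hS : GP S) {s : ℝ} (hs : s ≠ 0) {a b c : ℝ × ℝ}
    (ha : a ∈ S) (hb : b ∈ S) (hc : c ∈ S) (h1 : a ≠ b) (h2 : a ≠ c) (h3 : b ≠ c) :
    D s a b c ≠ 0 := by
  rw [D_one]; exact mul_ne_zero hs (hS a ha b hb c hc h1 h2 h3)

theorem In.pos {a b c q : ℝ × ℝ} (h : In a b c q) {s : ℝ} (hp : 0 < D s a b c) :
    0 < D s a b q ∧ 0 < D s b c q ∧ 0 < D s c a q := by
  obtain ⟨h1, h2, h3⟩ := h
  have hs : s ≠ 0 := by rintro rfl; simp [D] at hp
  have key : ∀ y : ℝ, 0 < D 1 a b c * y → 0 < s * y := by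
    intro y hy
    rw [D_one] at hp
    have h4 : 0 < (D 1 a b c * y) * (s * D 1 a b c) := mul_pos hy hp
    have h5 : (D 1 a b c * y) * (s * D 1 a b c) = (D 1 a b c)^2 * (s * y) := by ring
    rw [h5] at h4
    exact (mul_pos_iff_of_pos_left (lt_of_le_of_ne (sq_nonneg _) (by
      intro h6; rw [← h6] at h4; simp at h4))).1 h4
  refine ⟨?_, ?_, ?_⟩
  · rw [D_one]; exact key _ h1
  · rw [D_one]; exact key _ h2
  · rw [D_one]; exact key _ h3

theorem In.swap {a b c q : ℝ × ℝ} (h : In a b c q) : In a c b q := by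
  obtain ⟨h1, h2, h3⟩ := h
  have e1 : D 1 a c b = - D 1 a b c := D_swap' _ _ _ _
  have e2 : D 1 a c q = - D 1 c a q := D_swap _ _ _ _
  have e3 : D 1 c b q = - D 1 b c q := D_swap _ _ _ _
  have e4 : D 1 b a q = - D 1 a b q := D_swap _ _ _ _
  refine ⟨?_, ?_, ?_⟩
  · rw [e1, e2]; linarith
  · rw [e1, e3]; linarith
  · rw [e1, e4]; linarith

theorem In.rot {a b c q : ℝ × ℝ} (h : In a b c q) : In b c a q := by
  obtain ⟨h1, h2, h3⟩ := h
  have e1 : D 1 b c a = D 1 a b c := (D_cyc _ _ _ _).symm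
  refine ⟨?_, ?_, ?_⟩
  · rw [e1]; exact h2
  · rw [e1]; exact h3
  · rw [e1]; exact h1

/-- a point strictly inside a triangle is lower than `m` if the vertices are at most `m`
high and one is strictly lower. -/
theorem In.ht_lt {a b c q : ℝ × ℝ} (h : In a b c q) {ε m : ℝ} (ha : Ht ε a ≤ m)
    (hb : Ht ε b ≤ m) (hc : Ht ε c < m) : Ht ε q < m := by
  obtain ⟨h1, h2, h3⟩ := h
  have e := baryH 1 ε a b c q
  have e' := baryS 1 a b c q
  have f1 : D 1 q b c = D 1 b c q := D_cyc _ _ _ _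
  have f2 : D 1 a q c = D 1 c a q := (D_cyc _ _ _ _).symm
  rw [f1, f2] at e e'
  have hne : 0 < D 1 a b c ^ 2 := by
    apply lt_of_le_of_ne (sq_nonneg _)
    intro h6
    have : D 1 a b c = 0 := by
      have := pow_eq_zero_iff (two_ne_zero) |>.1 h6.symm
      exact this
    rw [this] at h1; simp at h1
  have k : D 1 a b c ^ 2 * (m - Ht ε q) = (D 1 a b c * D 1 b c q) * (m - Ht ε a)
      + (D 1 a b c * D 1 c a q) * (m - Ht ε b) + (D 1 a b c * D 1 a b q) * (m - Ht ε c) := by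
    linear_combination (-(D 1 a b c)) * e + m * D 1 a b c * e'
  have k2 : 0 < D 1 a b c ^ 2 * (m - Ht ε q) := by
    rw [k]
    have := mul_nonneg h2.le (sub_nonneg.2 ha)
    have := mul_nonneg h3.le (sub_nonneg.2 hb)
    have := mul_pos h1 (sub_pos.2 hc)
    linarith
  have := (mul_pos_iff_of_pos_left hne).1 k2
  linarith

theorem convex_half (s : ℝ) (a b : ℝ × ℝ) : Convex ℝ {q : ℝ × ℝ | 0 ≤ D s a b q} := by
  intro x hx y hy t u ht hu htu
  simp only [Set.mem_ofPred_eq] at *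
  have : D s a b (t • x + u • y) = t * D s a b x + u * D s a b y := by
    unfold D
    simp only [Prod.fst_add, Prod.snd_add, Prod.smul_fst, Prod.smul_snd, smul_eq_mul]
    have : u = 1 - t := by linarith
    rw [this]; ring
  rw [this]; positivity

theorem D_hull {s : ℝ} {a b c q : ℝ × ℝ} (h : 0 < D s a b c)
    (hq : q ∈ convexHull ℝ ({a, b, c} : Set (ℝ × ℝ))) : 0 ≤ D s a b q := by
  have : convexHull ℝ ({a, b, c} : Set (ℝ × ℝ)) ⊆ {q : ℝ × ℝ | 0 ≤ D s a b q} := by
    apply convexHull_min _ (convex_half s a b)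
    intro y hy
    simp only [Set.mem_insert_iff, Set.mem_singleton_iff] at hy
    rcases hy with rfl | rfl | rfl
    · simp [D_aba]
    · simp [D_abb]
    · simpa using h.le
  exact this hq

theorem mem_Tri {S : Finset (ℝ × ℝ)} (hS : GP S) {f : ℝ × ℝ → Bool} {a b c : ℝ × ℝ}
    (ha : a ∈ S) (hb : b ∈ S) (hc : c ∈ S) (hab : a ≠ b) (hac : a ≠ c) (hbc : b ≠ c)
    (h1 : f b = f a) (h2 : f c = f a) (h : ∀ q ∈ S, ¬ In a b c q) :
    ({a, b, c} : Finset (ℝ × ℝ)) ∈ Tri S f := by
  unfold Tri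
  rw [Finset.mem_filter, Finset.mem_powersetCard]
  refine ⟨⟨?_, ?_⟩, ⟨f a, ?_⟩, ?_⟩
  · intro y hy
    simp only [Finset.mem_insert, Finset.mem_singleton] at hy
    rcases hy with rfl | rfl | rfl <;> assumption
  · rw [Finset.card_insert_of_notMem, Finset.card_insert_of_notMem, Finset.card_singleton]
    · simpa using hbc
    · simp [hab, hac]
  · intro y hy
    simp only [Finset.mem_insert, Finset.mem_singleton] at hy
    rcases hy with rfl | rfl | rfl
    · rfl
    · exact h1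
    · exact h2
  · rw [Set.disjoint_left]
    intro q hq hq'
    have hq2 : q ∈ S ∧ q ≠ a ∧ q ≠ b ∧ q ≠ c := by
      simpa using hq'
    obtain ⟨hqS, qa, qb, qc⟩ := hq2
    apply h q hqS
    have hq3 : q ∈ convexHull ℝ ({a, b, c} : Set (ℝ × ℝ)) := by simpa using hq
    have hD : D 1 a b c ≠ 0 := hS a ha b hb c hc hab hac hbc
    have hset1 : ({b, c, a} : Set (ℝ × ℝ)) = {a, b, c} := by
      ext y; simp only [Set.mem_insert_iff, Set.mem_singleton_iff]; tauto
    have hset2 : ({c, a, b} : Set (ℝ × ℝ)) = {a, b, c} := by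
      ext y; simp only [Set.mem_insert_iff, Set.mem_singleton_iff]; tauto
    have hs : ∃ s : ℝ, s ≠ 0 ∧ 0 < D s a b c ∧ s = D 1 a b c := by
      refine ⟨D 1 a b c, hD, ?_, rfl⟩
      rw [D_one]; exact mul_self_pos.2 hD
    obtain ⟨s, hs0, hsp, hse⟩ := hs
    have k1 : 0 ≤ D s a b q := D_hull hsp hq3
    have k2 : 0 ≤ D s b c q := D_hull (by rw [← D_cyc]; exact hsp) (by rw [hset1]; exact hq3)
    have k3 : 0 ≤ D s c a q := D_hull (by rw [D_cyc]; exact hsp) (by rw [hset2]; exact hq3)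
    have n1 : D 1 a b q ≠ 0 := hS a ha b hb q hqS hab qa.symm qb.symm
    have n2 : D 1 b c q ≠ 0 := hS b hb c hc q hqS hbc qb.symm qc.symm
    have n3 : D 1 c a q ≠ 0 := hS c hc a ha q hqS hac.symm qc.symm qa.symm
    rw [D_one, hse] at k1 k2 k3
    exact ⟨lt_of_le_of_ne k1 (mul_ne_zero hD n1).symm,
      lt_of_le_of_ne k2 (mul_ne_zero hD n2).symm,
      lt_of_le_of_ne k3 (mul_ne_zero hD n3).symm⟩

end Pool.Agent.Lib.MP_9ff0e7_co
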