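import Pool.Agent.Lib.MP_9ff0e7_co.Disc

/-!
Parents of the points below `x`.
-/

set_option autoImplicit false
open scoped Classical

namespace Pool.Agent.Lib.MP_9ff0e7_co

/-- `q` is the parent of `p` on the `s`-side in the set of the points below `x`. -/
def Par (s ε : ℝ) (S : Finset (ℝ × ℝ)) (x p q : ℝ × ℝ) : Prop :=
  q ∈ Low ε S (Ht ε x) ∧ 0 < D s x p q ∧
    ∀ r ∈ Low ε S (Ht ε x), 0 < D s x p r → r ≠ q → D s p q r < 0

theorem D_pos_ne1 {s : ℝ} {a b c : ℝ × ℝ} (h : 0 < D s a b c) : a ≠ b := by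
  rintro rfl; rw [D_aac] at h; exact lt_irrefl _ h
theorem D_pos_ne2 {s : ℝ} {a b c : ℝ × ℝ} (h : 0 < D s a b c) : b ≠ c := by
  rintro rfl; rw [D_abb] at h; exact lt_irrefl _ h
theorem D_pos_ne3 {s : ℝ} {a b c : ℝ × ℝ} (h : 0 < D s a b c) : a ≠ c := by
  rintro rfl; rw [D_aba] at h; exact lt_irrefl _ h

theorem Par_exists {S : Finset (ℝ × ℝ)} (hS : GP S) {s ε : ℝ} (hs : s ≠ 0) {x p : ℝ × ℝ}
    (hp : p ∈ Low ε S (Ht ε x))
    (h : ∃ q ∈ Low ε S (Ht ε x), 0 < D s x p q) : ∃ q, Par s ε S x p q := by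
  obtain ⟨q0, hq0, hq1⟩ := h
  have hne : ((Low ε S (Ht ε x)).filter (fun q => 0 < D s x p q)).Nonempty :=
    ⟨q0, Finset.mem_filter.2 ⟨hq0, hq1⟩⟩
  obtain ⟨q, hq, hmax⟩ := Finset.exists_max_image _
    (fun q => (Ht ε q - Ht ε p) / D s x p q) hne
  obtain ⟨hq2, hq3⟩ := Finset.mem_filter.1 hq
  refine ⟨q, hq2, hq3, ?_⟩
  intro r hr hr2 hrq
  have h1 := hmax r (Finset.mem_filter.2 ⟨hr, hr2⟩)
  rw [div_le_div_iff₀ hr2 hq3] at h1
  have h2 := plucker s ε x q r p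
  have e1 : D s p x q = - D s x p q := D_swap _ _ _ _
  have e2 : D s p x r = - D s x p r := D_swap _ _ _ _
  rw [e1, e2] at h2
  have hx : 0 < Ht ε x - Ht ε p := sub_pos.2 (mem_Low.1 hp).2
  have h3 : D s p q r * (Ht ε x - Ht ε p) ≤ 0 := by nlinarith
  have h4 : D s p q r ≤ 0 := by
    by_contra hcon; push Not at hcon
    have := mul_pos hcon hx; linarith
  apply lt_of_le_of_ne h4
  exact hS.ne hs (mem_Low.1 hp).1 (mem_Low.1 hq2).1 (mem_Low.1 hr).1 (D_pos_ne2 hq3)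
    (D_pos_ne2 hr2) hrq.symm

theorem Par_unique {S : Finset (ℝ × ℝ)} {s ε : ℝ} {x p q q' : ℝ × ℝ}
    (h : Par s ε S x p q) (h' : Par s ε S x p q') : q = q' := by
  by_contra hne
  have h1 := h.2.2 q' h'.1 h'.2.1 (Ne.symm hne)
  have h2 := h'.2.2 q h.1 h.2.1 hne
  have : D s p q' q = - D s p q q' := D_swap' _ _ _ _
  linarith

/-- the triangle of `x`, `p` and a parent of `p` is empty. -/
theorem Par_empty {S : Finset (ℝ × ℝ)} {s ε : ℝ} {x p q : ℝ × ℝ}
    (hp : p ∈ Low ε S (Ht ε x)) (h : Par s ε S x p q) : ∀ r ∈ S, ¬ In x p q r := by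
  intro r hr hin
  obtain ⟨h1, h2, h3⟩ := hin.pos h.2.1
  have hrH : Ht ε r < Ht ε x := hin.ht_lt le_rfl (mem_Low.1 hp).2.le (mem_Low.1 h.1).2
  have hrq : r ≠ q := by
    rintro rfl; rw [D_abb] at h2; exact lt_irrefl _ h2
  have := h.2.2 r (mem_Low.2 ⟨hr, hrH⟩) h1 hrq
  linarith

/-- at most one point has no right neighbour. -/
theorem no_par_card {S : Finset (ℝ × ℝ)} (hS : GP S) {s ε : ℝ} (hs : s ≠ 0) {x : ℝ × ℝ}
    (hx : x ∈ S) (I : Finset (ℝ × ℝ)) (hI : I ⊆ Low ε S (Ht ε x)) :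
    (I.filter (fun p => ¬ ∃ q, Par s ε S x p q)).card ≤ 1 := by
  rw [Finset.card_le_one]
  intro a ha b hb
  obtain ⟨ha1, ha2⟩ := Finset.mem_filter.1 ha
  obtain ⟨hb1, hb2⟩ := Finset.mem_filter.1 hb
  by_contra hne
  have h1 : D s x a b ≠ 0 := hS.ne hs hx (mem_Low.1 (hI ha1)).1 (mem_Low.1 (hI hb1)).1
    (ne_of_below (hI ha1)).symm (ne_of_below (hI hb1)).symm hne
  rcases lt_or_gt_of_ne h1 with h2 | h2
  · apply hb2
    apply Par_exists hS hs (hI hb1)
    refine ⟨a, hI ha1, ?_⟩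
    rw [D_swap']; linarith
  · apply ha2
    exact Par_exists hS hs (hI ha1) ⟨b, hI hb1, h2⟩

/-- few points have a parent of their own colour. -/
theorem mono_par_card {S : Finset (ℝ × ℝ)} (hS : GP S) (f : ℝ × ℝ → Bool) {s ε : ℝ} {x : ℝ × ℝ}
    (hx : x ∈ S) (I : Finset (ℝ × ℝ)) (hI : I ⊆ Low ε S (Ht ε x)) :
    (I.filter (fun p => f p = f x ∧ ∃ q, Par s ε S x p q ∧ f q = f x)).card ≤ ee S f x := by
  have hch : ∀ p ∈ I.filter (fun p => f p = f x ∧ ∃ q, Par s ε S x p q ∧ f q = f x),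
      ∃ q, Par s ε S x p q ∧ f q = f x := fun p hp => (Finset.mem_filter.1 hp).2.2
  choose! w hw1 hw2 using hch
  unfold ee
  apply Finset.card_le_card_of_injOn (fun p => ({x, p, w p} : Finset (ℝ × ℝ)))
  · intro p hp
    have hp' := Finset.mem_coe.1 hp
    obtain ⟨hp1, hp2, -⟩ := Finset.mem_filter.1 hp'
    have hpar := hw1 p hp'
    rw [Finset.mem_coe, Finset.mem_filter]
    refine ⟨mem_Tri hS hx (mem_Low.1 (hI hp1)).1 (mem_Low.1 hpar.1).1
      (ne_of_below (hI hp1)).symm (ne_of_below hpar.1).symm (D_pos_ne2 hpar.2.1) hp2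
      (hw2 p hp') (Par_empty (hI hp1) hpar), by simp⟩
  · intro p hp p' hp' heq
    have hp1 := Finset.mem_coe.1 hp
    have hp1' := Finset.mem_coe.1 hp'
    simp only at heq
    have a1 : p ∈ ({x, p', w p'} : Finset (ℝ × ℝ)) := by rw [← heq]; simp
    have a2 : p' ∈ ({x, p, w p} : Finset (ℝ × ℝ)) := by rw [heq]; simp
    simp only [Finset.mem_insert, Finset.mem_singleton] at a1 a2
    rcases a1 with a1 | a1 | a1
    · exact absurd a1 (ne_of_below (hI (Finset.mem_filter.1 hp1).1))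
    · exact a1
    · rcases a2 with a2 | a2 | a2
      · exact absurd a2 (ne_of_below (hI (Finset.mem_filter.1 hp1').1))
      · exact a2.symm
      · have h1 := (hw1 p hp1).2.1
        have h2 := (hw1 p' hp1').2.1
        rw [← a1] at h2
        rw [← a2] at h1
        have : D s x p' p = - D s x p p' := D_swap' _ _ _ _
        linarith

/-- Few `x` in a block have both parents of `p` in the island below the block. -/
theorem par_count {S : Finset (ℝ × ℝ)} (hS : GP S) (f : ℝ × ℝ → Bool) {s ε : ℝ} (hs : s ≠ 0)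
    (hH : Set.InjOn (Ht ε) S) (h0 : ℝ) (Z : Finset (ℝ × ℝ)) (hZ : Z ⊆ S)
    (hZ0 : ∀ z ∈ Z, h0 ≤ Ht ε z) {p : ℝ × ℝ} (hp : p ∈ Low ε S h0) :
    (Z.filter (fun x => f x = f p ∧ (∃ q ∈ Low ε S h0, Par s ε S x p q ∧ f q ≠ f p) ∧
      (∃ q ∈ Low ε S h0, Par (-s) ε S x p q ∧ f q ≠ f p))).card
    + ((Low ε S h0).filter (fun q => 0 < 1 * (Ht ε q - Ht ε p) ∧ f q = f p)).card ≤
    ((Low ε S h0).filter (fun q => 0 < 1 * (Ht ε q - Ht ε p) ∧ f q ≠ f p)).card
      + ee S f p + 1 := by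
  have hpS := (mem_Low.1 hp).1
  have hph := (mem_Low.1 hp).2
  set Z' := Z.filter (fun x => f x = f p ∧ (∃ q ∈ Low ε S h0, Par s ε S x p q ∧ f q ≠ f p) ∧
      (∃ q ∈ Low ε S h0, Par (-s) ε S x p q ∧ f q ≠ f p)) with hZ'
  set R := (Low ε S h0).filter (fun q => 0 < 1 * (Ht ε q - Ht ε p) ∧ f q = f p) with hR
  set B := (Low ε S h0).filter (fun q => 0 < 1 * (Ht ε q - Ht ε p) ∧ f q ≠ f p) with hB
  have hdis : Disjoint Z' R := by
    rw [Finset.disjoint_left]
    intro q hq hq'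
    have a := hZ0 q (Finset.mem_filter.1 hq).1
    have b := (mem_Low.1 (Finset.mem_filter.1 hq').1).2
    linarith
  rw [← Finset.card_union_of_disjoint hdis]
  -- facts on the members
  have hZS : ∀ a ∈ Z', a ∈ S ∧ h0 ≤ Ht ε a ∧ f a = f p ∧ Ht ε p < Ht ε a := by
    intro a ha
    obtain ⟨h1, h2, -⟩ := Finset.mem_filter.1 ha
    have := hZ0 a h1
    exact ⟨hZ h1, this, h2, by linarith⟩
  have hRS : ∀ a ∈ R, a ∈ S ∧ Ht ε a < h0 ∧ f a = f p ∧ Ht ε p < Ht ε a := by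
    intro a ha
    obtain ⟨h1, h2, h3⟩ := Finset.mem_filter.1 ha
    exact ⟨(mem_Low.1 h1).1, (mem_Low.1 h1).2, h3, by linarith⟩
  have hab : ∀ a ∈ Z' ∪ R, a ∈ S ∧ f a = f p ∧ Ht ε p < Ht ε a := by
    intro a ha
    rcases Finset.mem_union.1 ha with ha | ha
    · exact ⟨(hZS a ha).1, (hZS a ha).2.2.1, (hZS a ha).2.2.2⟩
    · exact ⟨(hRS a ha).1, (hRS a ha).2.2.1, (hRS a ha).2.2.2⟩
  have hprod : ∀ a b : ℝ × ℝ, Ht ε p < Ht ε a → Ht ε p < Ht ε b →
      0 < (Ht ε a - Ht ε p) * (Ht ε b - Ht ε p) := fun a b ha hb =>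
    mul_pos (sub_pos.2 ha) (sub_pos.2 hb)
  -- betweenness gives a blue point
  have hbet : ∀ a a' q : ℝ × ℝ, Ht ε p < Ht ε a → Ht ε p < Ht ε a' → 0 < D s p a a' →
      0 < D s p a q → 0 < D s p q a' → q ∈ Low ε S h0 → f q ≠ f p →
      ∃ b ∈ B, ord s ε p a < ord s ε p b ∧ ord s ε p b < ord s ε p a' := by
    intro a a' q h1 h2 h3 h4 h5 h6 h7
    have hpl := plucker s ε a q a' p
    have : 0 < D s p a a' * (Ht ε q - Ht ε p) := by
      rw [← hpl]
      have := mul_pos h4 (sub_pos.2 h2); have := mul_pos h5 (sub_pos.2 h1); linarith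
    have hq := (mul_pos_iff_of_pos_left h3).1 this
    refine ⟨q, Finset.mem_filter.2 ⟨h6, by linarith, h7⟩, ?_, ?_⟩
    · exact (ord_lt s ε p a q (hprod a q h1 (sub_pos.1 hq))).2 h4
    · exact (ord_lt s ε p q a' (hprod q a' (sub_pos.1 hq) h2)).2 h5
  apply star hS hpS _ _ (ord s ε p)
  · intro a ha
    obtain ⟨h1, h2, h3⟩ := hab a ha
    exact ⟨h1, by rintro rfl; exact lt_irrefl _ h3, h2⟩
  · apply ord_inj hS hs hpS
    · intro a ha; exact (hab a ha).1
    · intro a ha b hb; exact hprod a b (hab a ha).2.2 (hab b hb).2.2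
  · intro a ha a' ha' hlt hc hb q hq hin
    obtain ⟨haS, haf, hah⟩ := hab a ha
    obtain ⟨haS', haf', hah'⟩ := hab a' ha'
    have hD : 0 < D s p a a' := (ord_lt s ε p a a' (hprod a a' hah hah')).1 hlt
    have hne : a ≠ a' := D_pos_ne2 hD
    -- the case where a' is a Z' point above a
    have case1 : a' ∈ Z' → Ht ε a < Ht ε a' → False := by
      intro hz hlt2
      obtain ⟨-, -, ⟨w, hwL, hwP, hwf⟩, -⟩ := Finset.mem_filter.1 hz
      have haL : a ∈ Low ε S (Ht ε a') := mem_Low.2 ⟨haS, hlt2⟩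
      have h1 : 0 < D s a' p a := by rw [D_cyc]; exact hD
      have haw : a ≠ w := by
        rintro rfl; exact hwf haf
      have h2 := hwP.2.2 a haL h1 haw
      -- D s p w a < 0
      have h3 : 0 < D s p a w := by rw [D_swap']; linarith
      have h4 : 0 < D s p w a' := by rw [← D_cyc]; exact hwP.2.1
      obtain ⟨b, hbB, hb1, hb2⟩ := hbet a a' w hah hah' hD h3 h4 hwL hwf
      exact hb b hbB ⟨hb1, hb2⟩
    have case2 : a ∈ Z' → Ht ε a' < Ht ε a → False := by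
      intro hz hlt2
      obtain ⟨-, -, -, ⟨w, hwL, hwP, hwf⟩⟩ := Finset.mem_filter.1 hz
      have haL : a' ∈ Low ε S (Ht ε a) := mem_Low.2 ⟨haS', hlt2⟩
      have h1 : 0 < D (-s) a p a' := by
        have : D (-s) a p a' = D s p a a' := by unfold D; ring
        rw [this]; exact hD
      have haw : a' ≠ w := by
        rintro rfl; exact hwf haf'
      have h2 := hwP.2.2 a' haL h1 haw
      have h3 : 0 < D s p a w := by
        have : D (-s) a p w = D s p a w := by unfold D; ring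
        rw [← this]; exact hwP.2.1
      have h4 : 0 < D s p w a' := by
        have : D (-s) p w a' = - D s p w a' := D_neg _ _ _ _
        linarith
      obtain ⟨b, hbB, hb1, hb2⟩ := hbet a a' w hah hah' hD h3 h4 hwL hwf
      exact hb b hbB ⟨hb1, hb2⟩
    rcases Finset.mem_union.1 ha with haZ | haR
    · rcases lt_or_gt_of_ne (fun h => hne (hH haS haS' h)) with hlt2 | hlt2
      · rcases Finset.mem_union.1 ha' with haZ' | haR'
        · exact case1 haZ' hlt2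
        · have := (hZS a haZ).2.1
          have := (hRS a' haR').2.1
          linarith
      · exact case2 haZ hlt2
    · rcases Finset.mem_union.1 ha' with haZ' | haR'
      · apply case1 haZ'
        have := (hZS a' haZ').2.1
        have := (hRS a haR).2.1
        linarith
      · -- both in R
        obtain ⟨k1, k2, k3, k4⟩ := hin.ord_between (hprod a a' hah hah') hlt
        have hqH : Ht ε q < h0 :=
          hin.ht_lt (ε := ε) (m := h0) hph.le (hRS a haR).2.1.le (hRS a' haR').2.1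
        have hqp : Ht ε p < Ht ε q :=
          sub_pos.1 ((mul_pos_iff_of_pos_left (sub_pos.2 hah)).1 k1)
        have hqL : q ∈ Low ε S h0 := mem_Low.2 ⟨hq, hqH⟩
        by_cases hf : f q = f p
        · exact hc q (Finset.mem_union_right _ (Finset.mem_filter.2 ⟨hqL, by linarith, hf⟩))
            ⟨k3, k4⟩
        · exact hb q (Finset.mem_filter.2 ⟨hqL, by linarith, hf⟩) ⟨k3, k4⟩

end Pool.Agent.Lib.MP_9ff0e7_co
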