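import Pool.Agent.Lib.MP_9ff0e7_co.Geo

/-!
Counting consecutive pairs, the star lemma and the discrepancy bounds.
-/

set_option autoImplicit false
open scoped Classical

namespace Pool.Agent.Lib.MP_9ff0e7_co

/-- consecutive pairs of `A` (in the order given by `g`) without a point of `B` in between. -/
noncomputable def Cons (A B : Finset (ℝ × ℝ)) (g : ℝ × ℝ → ℝ) : Finset ((ℝ × ℝ) × (ℝ × ℝ)) :=
  (A ×ˢ A).filter (fun q => g q.1 < g q.2 ∧ (∀ c ∈ A, ¬ (g q.1 < g c ∧ g c < g q.2)) ∧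
    (∀ b ∈ B, ¬ (g q.1 < g b ∧ g b < g q.2)))

theorem adj_count (A B : Finset (ℝ × ℝ)) (g : ℝ × ℝ → ℝ) (hg : Set.InjOn g A) :
    A.card ≤ B.card + (Cons A B g).card + 1 := by
  rcases A.eq_empty_or_nonempty with rfl | hne
  · simp
  obtain ⟨m, hm, hmax⟩ := A.exists_max_image g hne
  have hA : A.card = (A.erase m).card + 1 := (Finset.card_erase_add_one hm).symm
  -- successor
  have hsucc : ∀ a ∈ A.erase m, ∃ a' ∈ A, g a < g a' ∧ ∀ c ∈ A, g a < g c → g a' ≤ g c := by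
    intro a ha
    have ha2 := Finset.mem_erase.1 ha
    have h1 : (A.filter (fun c => g a < g c)).Nonempty := by
      refine ⟨m, Finset.mem_filter.2 ⟨hm, ?_⟩⟩
      apply lt_of_le_of_ne (hmax a ha2.2)
      intro h; exact ha2.1 (hg ha2.2 hm h)
    obtain ⟨a', ha', hmin⟩ := Finset.exists_min_image _ g h1
    have ha'2 := Finset.mem_filter.1 ha'
    exact ⟨a', ha'2.1, ha'2.2, fun c hc hac => hmin c (Finset.mem_filter.2 ⟨hc, hac⟩)⟩
  choose! σ hσA hσlt hσmin using hsucc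
  -- split
  set N := (A.erase m).filter (fun a => ∃ b ∈ B, g a < g b ∧ g b < g (σ a)) with hN
  have hsplit : (A.erase m).card = N.card +
      ((A.erase m).filter (fun a => ¬ ∃ b ∈ B, g a < g b ∧ g b < g (σ a))).card := by
    rw [hN]; exact (Finset.card_filter_add_card_filter_not _).symm
  have h1 : N.card ≤ B.card := by
    have hb : ∀ a ∈ N, ∃ b ∈ B, g a < g b ∧ g b < g (σ a) := fun a ha =>
      (Finset.mem_filter.1 ha).2
    choose! β hβB hβ1 hβ2 using hb
    apply Finset.card_le_card_of_injOn β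
    · intro a ha; exact hβB a ha
    · intro a ha a' ha' h
      by_contra hne
      have haA := (Finset.mem_filter.1 ha).1
      have haA' := (Finset.mem_filter.1 ha').1
      have hgne : g a ≠ g a' := fun h => hne (hg (Finset.mem_erase.1 haA).2
        (Finset.mem_erase.1 haA').2 h)
      rcases lt_or_gt_of_ne hgne with hlt | hlt
      · have := hσmin a haA a' (Finset.mem_erase.1 haA').2 hlt
        have h2 := hβ2 a ha
        have h3 := hβ1 a' ha'
        rw [h] at h2; linarith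
      · have := hσmin a' haA' a (Finset.mem_erase.1 haA).2 hlt
        have h2 := hβ2 a' ha'
        have h3 := hβ1 a ha
        rw [h] at h3; linarith
  have h2 : ((A.erase m).filter (fun a => ¬ ∃ b ∈ B, g a < g b ∧ g b < g (σ a))).card
      ≤ (Cons A B g).card := by
    apply Finset.card_le_card_of_injOn (fun a => (a, σ a))
    · intro a ha
      have ha1 := Finset.mem_filter.1 (Finset.mem_coe.1 ha)
      have ha2 := Finset.mem_erase.1 ha1.1
      simp only [Cons, Finset.coe_filter, Finset.mem_product, Set.mem_ofPred_eq]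
      refine ⟨⟨ha2.2, hσA a ha1.1⟩, hσlt a ha1.1, ?_, ?_⟩
      · rintro c hc ⟨h3, h4⟩
        have := hσmin a ha1.1 c hc h3
        linarith
      · rintro b hb ⟨h3, h4⟩
        exact ha1.2 ⟨b, hb, h3, h4⟩
    · intro a _ a' _ h
      exact (Prod.mk.inj h).1
  omega

/-- The star lemma. -/
theorem star {S : Finset (ℝ × ℝ)} (hS : GP S) {f : ℝ × ℝ → Bool} {u : ℝ × ℝ} (hu : u ∈ S)
    (A B : Finset (ℝ × ℝ)) (g : ℝ × ℝ → ℝ) (hA : ∀ a ∈ A, a ∈ S ∧ a ≠ u ∧ f a = f u)
    (hg : Set.InjOn g A)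
    (h : ∀ a ∈ A, ∀ a' ∈ A, g a < g a' → (∀ c ∈ A, ¬ (g a < g c ∧ g c < g a')) →
      (∀ b ∈ B, ¬ (g a < g b ∧ g b < g a')) → ∀ q ∈ S, ¬ In u a a' q) :
    A.card ≤ B.card + ee S f u + 1 := by
  have h1 := adj_count A B g hg
  have h2 : (Cons A B g).card ≤ ee S f u := by
    unfold ee
    apply Finset.card_le_card_of_injOn (fun q => ({u, q.1, q.2} : Finset (ℝ × ℝ)))
    · intro q hq
      have hq2 := Finset.mem_filter.1 (Finset.mem_coe.1 hq)
      have hq3 := Finset.mem_product.1 hq2.1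
      obtain ⟨hq4, hq5, hq6⟩ := hq2.2
      have hne : q.1 ≠ q.2 := by
        intro h; rw [h] at hq4; exact lt_irrefl _ hq4
      rw [Finset.mem_coe, Finset.mem_filter]
      refine ⟨mem_Tri hS hu (hA _ hq3.1).1 (hA _ hq3.2).1 (hA _ hq3.1).2.1.symm
        (hA _ hq3.2).2.1.symm hne (hA _ hq3.1).2.2 (hA _ hq3.2).2.2
        (h _ hq3.1 _ hq3.2 hq4 hq5 hq6), by simp⟩
    · intro q hq q' hq' heq
      have hq2 := Finset.mem_filter.1 (Finset.mem_coe.1 hq)
      have hq3 := Finset.mem_product.1 hq2.1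
      have hq2' := Finset.mem_filter.1 (Finset.mem_coe.1 hq')
      have hq3' := Finset.mem_product.1 hq2'.1
      simp only at heq
      have a1 : q.1 ∈ ({u, q'.1, q'.2} : Finset (ℝ × ℝ)) := by rw [← heq]; simp
      have a2 : q.2 ∈ ({u, q'.1, q'.2} : Finset (ℝ × ℝ)) := by rw [← heq]; simp
      simp only [Finset.mem_insert, Finset.mem_singleton] at a1 a2
      have u1 : q.1 ≠ u := (hA _ hq3.1).2.1
      have u2 : q.2 ≠ u := (hA _ hq3.2).2.1
      have l1 := hq2.2.1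
      have l2 := hq2'.2.1
      rcases a1 with a1 | a1 | a1
      · exact absurd a1 u1
      · rcases a2 with a2 | a2 | a2
        · exact absurd a2 u2
        · rw [a1, a2] at l1; exact absurd l1 (lt_irrefl _)
        · exact Prod.ext a1 a2
      · rcases a2 with a2 | a2 | a2
        · exact absurd a2 u2
        · rw [a1, a2] at l1; exact absurd l1 (lt_asymm l2)
        · rw [a1, a2] at l1; exact absurd l1 (lt_irrefl _)
  omega

/-- the island of the points lower than `h0`. -/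
noncomputable def Low (ε : ℝ) (S : Finset (ℝ × ℝ)) (h0 : ℝ) : Finset (ℝ × ℝ) :=
  S.filter (fun q => Ht ε q < h0)

theorem mem_Low {ε : ℝ} {S : Finset (ℝ × ℝ)} {h0 : ℝ} {q : ℝ × ℝ} :
    q ∈ Low ε S h0 ↔ q ∈ S ∧ Ht ε q < h0 := by
  unfold Low; exact Finset.mem_filter

/-- order data around `p` from a triangle `p a a'` and a point inside. -/
theorem In.ord_between {ε s : ℝ} {p a a' q : ℝ × ℝ}
    (hin : In p a a' q) (ha : 0 < (Ht ε a - Ht ε p) * (Ht ε a' - Ht ε p))
    (hlt : ord s ε p a < ord s ε p a') :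
    0 < (Ht ε a - Ht ε p) * (Ht ε q - Ht ε p) ∧ 0 < (Ht ε q - Ht ε p) * (Ht ε a' - Ht ε p) ∧
    ord s ε p a < ord s ε p q ∧ ord s ε p q < ord s ε p a' := by
  have hD : 0 < D s p a a' := (ord_lt s ε p a a' ha).1 hlt
  obtain ⟨h1, h2, h3⟩ := hin.pos hD
  have h3' : 0 < D s p q a' := by rw [D_cyc, D_cyc]; exact h3
  have hpl := plucker s ε a q a' p
  -- D p a q (H a' - H p) + D p q a' (H a - H p) = D p a a' (H q - H p)
  have hq : 0 < (Ht ε a - Ht ε p) * (Ht ε q - Ht ε p) ∧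
      0 < (Ht ε q - Ht ε p) * (Ht ε a' - Ht ε p) := by
    rcases pos_and_pos_or_neg_and_neg_of_mul_pos ha with ⟨ha1, ha2⟩ | ⟨ha1, ha2⟩
    · have : 0 < D s p a a' * (Ht ε q - Ht ε p) := by
        rw [← hpl]; have := mul_pos h1 ha2; have := mul_pos h3' ha1; linarith
      have hq := (mul_pos_iff_of_pos_left hD).1 this
      exact ⟨mul_pos ha1 hq, mul_pos hq ha2⟩
    · have : D s p a a' * (Ht ε q - Ht ε p) < 0 := by
        rw [← hpl]; have := mul_neg_of_pos_of_neg h1 ha2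
        have := mul_neg_of_pos_of_neg h3' ha1; linarith
      have hq : Ht ε q - Ht ε p < 0 := by
        by_contra hcon; push Not at hcon
        have := mul_nonneg hD.le hcon; linarith
      exact ⟨mul_pos_of_neg_of_neg ha1 hq, mul_pos_of_neg_of_neg hq ha2⟩
  exact ⟨hq.1, hq.2, (ord_lt s ε p a q hq.1).2 h1, (ord_lt s ε p q a' hq.2).2 h3'⟩

/-- injectivity of the order function in a half plane. -/
theorem ord_inj {S : Finset (ℝ × ℝ)} (hS : GP S) {s ε : ℝ} (hs : s ≠ 0) {p : ℝ × ℝ} (hp : p ∈ S)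
    {A : Finset (ℝ × ℝ)} (hA : ∀ a ∈ A, a ∈ S) 
    (hH : ∀ a ∈ A, ∀ b ∈ A, 0 < (Ht ε a - Ht ε p) * (Ht ε b - Ht ε p)) :
    Set.InjOn (ord s ε p) A := by
  intro a ha b hb hab
  by_contra hne
  have h1 := hH a ha b hb
  have ha0 : Ht ε a ≠ Ht ε p := by intro h; rw [h] at h1; simp at h1
  have hb0 : Ht ε b ≠ Ht ε p := by intro h; rw [h] at h1; simp at h1
  have h2 : D s p a b = 0 := by rw [ord_eq s ε p a b ha0 hb0, hab]; ring
  exact hS.ne hs hp (hA a ha) (hA b hb) (by rintro rfl; exact ha0 rfl)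
    (by rintro rfl; exact hb0 rfl) hne h2

/-- discrepancy in a half of an island. -/
theorem disc_half {S : Finset (ℝ × ℝ)} (hS : GP S) (f : ℝ × ℝ → Bool) (ε h0 : ℝ)
    {p : ℝ × ℝ} (hp : p ∈ Low ε S h0) (t : ℝ) :
    ((Low ε S h0).filter (fun q => 0 < t * (Ht ε q - Ht ε p) ∧ f q = f p)).card ≤
    ((Low ε S h0).filter (fun q => 0 < t * (Ht ε q - Ht ε p) ∧ f q ≠ f p)).card
      + ee S f p + 1 := by
  have hpS := (mem_Low.1 hp).1
  have hprod : ∀ a b : ℝ × ℝ, 0 < t * (Ht ε a - Ht ε p) → 0 < t * (Ht ε b - Ht ε p) →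
      0 < (Ht ε a - Ht ε p) * (Ht ε b - Ht ε p) := by
    intro a b ha hb
    have h1 := mul_pos ha hb
    have h2 : (t * (Ht ε a - Ht ε p)) * (t * (Ht ε b - Ht ε p))
      = t ^ 2 * ((Ht ε a - Ht ε p) * (Ht ε b - Ht ε p)) := by ring
    rw [h2] at h1
    have ht : 0 < t ^ 2 := by
      apply lt_of_le_of_ne (sq_nonneg _)
      intro h; rw [← h] at h1; simp at h1
    exact (mul_pos_iff_of_pos_left ht).1 h1
  apply star hS hpS _ _ (ord 1 ε p)
  · intro a ha
    obtain ⟨ha1, ha2, ha3⟩ := Finset.mem_filter.1 ha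
    refine ⟨(mem_Low.1 ha1).1, ?_, ha3⟩
    rintro rfl; simp at ha2
  · apply ord_inj hS one_ne_zero hpS
    · intro a ha
      exact (mem_Low.1 (Finset.mem_filter.1 ha).1).1
    · intro a ha b hb
      exact hprod a b (Finset.mem_filter.1 ha).2.1 (Finset.mem_filter.1 hb).2.1
  · intro a ha a' ha' hlt hc hb q hq hin
    obtain ⟨ha1, ha2, ha3⟩ := Finset.mem_filter.1 ha
    obtain ⟨ha1', ha2', ha3'⟩ := Finset.mem_filter.1 ha'
    obtain ⟨k1, k2, k3, k4⟩ := hin.ord_between (hprod a a' ha2 ha2') hlt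
    have hqH : Ht ε q < h0 := by
      -- take m = max of the heights
      rcases le_total (Ht ε p) (max (Ht ε a) (Ht ε a')) with hle | hle
      · have m0 : max (Ht ε a) (Ht ε a') < h0 := max_lt (mem_Low.1 ha1).2 (mem_Low.1 ha1').2
        by_contra hcon; push Not at hcon
        have := hin.ht_lt (ε := ε) (m := h0) (mem_Low.1 hp).2.le (mem_Low.1 ha1).2.le
          (mem_Low.1 ha1').2
        linarith
      · exact hin.ht_lt (ε := ε) (m := h0) (mem_Low.1 hp).2.le (mem_Low.1 ha1).2.le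
          (mem_Low.1 ha1').2
    have hqt : 0 < t * (Ht ε q - Ht ε p) := by
      have h1 : 0 < (t * (Ht ε a - Ht ε p)) * ((Ht ε a - Ht ε p) * (Ht ε q - Ht ε p)) :=
        mul_pos ha2 k1
      have h2 : (t * (Ht ε a - Ht ε p)) * ((Ht ε a - Ht ε p) * (Ht ε q - Ht ε p))
        = (Ht ε a - Ht ε p) ^ 2 * (t * (Ht ε q - Ht ε p)) := by ring
      rw [h2] at h1
      have ht : 0 < (Ht ε a - Ht ε p) ^ 2 := by
        apply lt_of_le_of_ne (sq_nonneg _)
        intro h; rw [← h] at h1; simp at h1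
      exact (mul_pos_iff_of_pos_left ht).1 h1
    have hqL : q ∈ Low ε S h0 := mem_Low.2 ⟨hq, hqH⟩
    by_cases hf : f q = f p
    · exact hc q (Finset.mem_filter.2 ⟨hqL, hqt, hf⟩) ⟨k3, k4⟩
    · exact hb q (Finset.mem_filter.2 ⟨hqL, hqt, hf⟩) ⟨k3, k4⟩

end Pool.Agent.Lib.MP_9ff0e7_co
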