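import Pool.Agent.Lib.MP_9ff0e7_co.Chain

/-!
Summation over the towers.
-/

set_option autoImplicit false
open scoped Classical

namespace Pool.Agent.Lib.MP_9ff0e7_co

/-- pairs that span monochromatic empty triangles with `u`. -/
theorem pairs_le {S : Finset (ℝ × ℝ)} (hS : GP S) {f : ℝ × ℝ → Bool} {u : ℝ × ℝ} (hu : u ∈ S)
    (N : Finset ((ℝ × ℝ) × (ℝ × ℝ))) (g : ℝ × ℝ → ℝ)
    (hN : ∀ q ∈ N, q.1 ∈ S ∧ q.2 ∈ S ∧ q.1 ≠ u ∧ q.2 ≠ u ∧ f q.1 = f u ∧ f q.2 = f u ∧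
      g q.1 < g q.2 ∧ ∀ r ∈ S, ¬ In u q.1 q.2 r) : N.card ≤ ee S f u := by
  unfold ee
  apply Finset.card_le_card_of_injOn (fun q => ({u, q.1, q.2} : Finset (ℝ × ℝ)))
  · intro q hq
    obtain ⟨h1, h2, h3, h4, h5, h6, h7, h8⟩ := hN q (Finset.mem_coe.1 hq)
    have hne : q.1 ≠ q.2 := by
      intro h; rw [h] at h7; exact lt_irrefl _ h7
    rw [Finset.mem_coe, Finset.mem_filter]
    exact ⟨mem_Tri hS hu h1 h2 h3.symm h4.symm hne h5 h6 h8, by simp⟩
  · intro q hq q' hq' heq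
    obtain ⟨-, -, u1, u2, -, -, l1, -⟩ := hN q (Finset.mem_coe.1 hq)
    obtain ⟨-, -, -, -, -, -, l2, -⟩ := hN q' (Finset.mem_coe.1 hq')
    simp only at heq
    have a1 : q.1 ∈ ({u, q'.1, q'.2} : Finset (ℝ × ℝ)) := by rw [← heq]; simp
    have a2 : q.2 ∈ ({u, q'.1, q'.2} : Finset (ℝ × ℝ)) := by rw [← heq]; simp
    simp only [Finset.mem_insert, Finset.mem_singleton] at a1 a2
    rcases a1 with a1 | a1 | a1
    · exact absurd a1 u1
    · rcases a2 with a2 | a2 | a2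
      · exact absurd a2 u2
      · rw [a1, a2] at l1; exact absurd l1 (lt_irrefl _)
      · exact Prod.ext a1 a2
    · rcases a2 with a2 | a2 | a2
      · exact absurd a2 u2
      · rw [a1, a2] at l1; exact absurd l1 (lt_asymm l2)
      · rw [a1, a2] at l1; exact absurd l1 (lt_irrefl _)

section tower

variable {S : Finset (ℝ × ℝ)} {s ε : ℝ} {x : ℝ × ℝ}

theorem Ch_sub (z : ℝ × ℝ) : Ch s ε S x z ⊆ Low ε S (Ht ε x) := Finset.filter_subset _ _

/-- number of monochromatic visible pairs of the tower of `z`. -/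
noncomputable def MM (s ε : ℝ) (f : ℝ × ℝ → Bool) (S : Finset (ℝ × ℝ)) (x z : ℝ × ℝ) : ℕ :=
  (F1 s ε f x (Ch s ε S x z) (Ch s ε S x z)).card

theorem sum_MM (hS : GP S) (hs : s ≠ 0) (f : ℝ × ℝ → Bool) (hx : x ∈ S) (Z : Finset (ℝ × ℝ))
    (hZ : ∀ z ∈ Z, z ∈ S ∧ f z ≠ f x) :
    ∑ z ∈ Z, MM s ε f S x z ≤ ee S f x + ∑ z ∈ Z, ee S f z := by
  set N : ℝ × ℝ → Finset ((ℝ × ℝ) × (ℝ × ℝ)) := fun z =>
    F1 s ε f x (Ch s ε S x z) (Ch s ε S x z) with hN
  have hsplit : ∀ z ∈ Z, MM s ε f S x z = ((N z).filter (fun q => f q.1 = f x)).card +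
      ((N z).filter (fun q => ¬ f q.1 = f x)).card := by
    intro z hz
    exact (Finset.card_filter_add_card_filter_not _).symm
  rw [Finset.sum_congr rfl hsplit, Finset.sum_add_distrib]
  apply Nat.add_le_add
  · rw [← Finset.card_biUnion]
    · apply pairs_le hS hx _ (ord s ε x)
      intro q hq
      obtain ⟨z, hz, hq⟩ := Finset.mem_biUnion.1 hq
      obtain ⟨hq1, hq2⟩ := Finset.mem_filter.1 hq
      obtain ⟨hq3, hq4, hq5, hq6⟩ := Finset.mem_filter.1 hq1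
      obtain ⟨hq7, hq8⟩ := Finset.mem_product.1 hq3
      have hP1 := Ch_sub z hq7
      have hP2 := Ch_sub z hq8
      exact ⟨(mem_Low.1 hP1).1, (mem_Low.1 hP2).1, ne_of_below hP1, ne_of_below hP2, hq2,
        hq5.symm.trans hq2, hq4, vis_empty_x hP1 hP2 hq4 (claimA hS hs hx hq7 hq8 hq4 hq6)⟩
    · intro z hz z' hz' hne
      refine Finset.disjoint_left.2 fun q hq hq' => ?_
      have h1 := (Finset.mem_product.1 (Finset.mem_filter.1 (Finset.mem_filter.1 hq).1).1).1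
      have h2 := (Finset.mem_product.1 (Finset.mem_filter.1 (Finset.mem_filter.1 hq').1).1).1
      exact hne (Par_unique (Finset.mem_filter.1 h1).2 (Finset.mem_filter.1 h2).2)
  · apply Finset.sum_le_sum
    intro z hz
    obtain ⟨hzS, hzf⟩ := hZ z hz
    apply pairs_le hS hzS _ (ord s ε x)
    intro q hq
    obtain ⟨hq1, hq2⟩ := Finset.mem_filter.1 hq
    obtain ⟨hq3, hq4, hq5, hq6⟩ := Finset.mem_filter.1 hq1
    obtain ⟨hq7, hq8⟩ := Finset.mem_product.1 hq3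
    have hP1 := Ch_sub z hq7
    have hP2 := Ch_sub z hq8
    have hb : f q.1 = f z := by
      revert hq2 hzf; cases f q.1 <;> cases f z <;> cases f x <;> simp
    refine ⟨(mem_Low.1 hP1).1, (mem_Low.1 hP2).1, ?_, ?_, hb, hq5.symm.trans hb, hq4,
      vis_empty_z hS hs hx hq7 hq8 hq4 (claimA hS hs hx hq7 hq8 hq4 hq6)⟩
    · have := (Finset.mem_filter.1 hq7).2.2.1
      exact D_pos_ne2 this
    · have := (Finset.mem_filter.1 hq8).2.2.1
      exact D_pos_ne2 this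

/-- numeric bound on the number of bichromatic pairs. -/
theorem num_rb {r b m l : ℝ} (hr : 0 ≤ r) (hb : 0 ≤ b) (h1 : r ≤ b + m) (h2 : b ≤ r + m)
    (hl : 0 ≤ l) : (2 * l * (r + b - m) - l ^ 2) / 4 ≤ r * b := by
  rcases le_or_gt m (r + b) with h | h
  · have h3 : (r - b) ^ 2 ≤ m ^ 2 := by
      apply sq_le_sq'
      · linarith
      · linarith
    have hm : 0 ≤ m := by linarith
    nlinarith [sq_nonneg (r + b - m - l), mul_nonneg hm (sub_nonneg.2 h)]
  · have : 0 ≤ r * b := mul_nonneg hr hb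
    nlinarith [mul_nonneg hl (sub_nonneg.2 h.le), sq_nonneg l]

theorem bichrom (f : ℝ × ℝ → Bool) (H : Finset (ℝ × ℝ)) (g : ℝ × ℝ → ℝ) (hg : Set.InjOn g H)
    (c : Bool) :
    (H.filter (fun h => f h = c)).card * (H.filter (fun h => f h ≠ c)).card ≤
      ∑ u ∈ H, (H.filter (fun h => g u < g h ∧ f h ≠ f u)).card := by
  rw [← Finset.card_product]
  have h1 : ∑ u ∈ H, (H.filter (fun h => g u < g h ∧ f h ≠ f u)).card =
      ((H ×ˢ H).filter (fun q => g q.1 < g q.2 ∧ f q.2 ≠ f q.1)).card := by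
    rw [Finset.card_filter, Finset.sum_product]
    apply Finset.sum_congr rfl
    intro u hu
    rw [Finset.card_filter]
  rw [h1]
  apply Finset.card_le_card_of_injOn (fun q => if g q.1 < g q.2 then q else (q.2, q.1))
  · intro q hq
    obtain ⟨hq1, hq2⟩ := Finset.mem_product.1 (Finset.mem_coe.1 hq)
    obtain ⟨a1, a2⟩ := Finset.mem_filter.1 hq1
    obtain ⟨b1, b2⟩ := Finset.mem_filter.1 hq2
    rw [Finset.mem_coe, Finset.mem_filter]
    have hne : f q.2 ≠ f q.1 := by rw [a2]; exact b2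
    dsimp only
    split_ifs with h
    · exact ⟨Finset.mem_product.2 ⟨a1, b1⟩, h, hne⟩
    · refine ⟨Finset.mem_product.2 ⟨b1, a1⟩, ?_, hne.symm⟩
      apply lt_of_le_of_ne (not_lt.1 h)
      intro heq
      apply hne; rw [hg b1 a1 heq]
  · intro q hq q' hq' heq
    obtain ⟨hq1, hq2⟩ := Finset.mem_product.1 (Finset.mem_coe.1 hq)
    obtain ⟨a1, a2⟩ := Finset.mem_filter.1 hq1
    obtain ⟨b1, b2⟩ := Finset.mem_filter.1 hq2
    obtain ⟨hq1', hq2'⟩ := Finset.mem_product.1 (Finset.mem_coe.1 hq')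
    obtain ⟨a1', a2'⟩ := Finset.mem_filter.1 hq1'
    obtain ⟨b1', b2'⟩ := Finset.mem_filter.1 hq2'
    simp only at heq
    split_ifs at heq with h h' h'
    · exact heq
    · have := congrArg Prod.fst heq
      simp only at this
      rw [this] at a2; exact absurd a2 b2'
    · have := congrArg Prod.fst heq
      simp only at this
      rw [← this] at a2'; exact absurd a2' b2
    · have e1 := congrArg Prod.fst heq
      have e2 := congrArg Prod.snd heq
      exact Prod.ext e2 e1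

/-- the bound from one tower. -/
theorem tower_bound (hS : GP S) (f : ℝ × ℝ → Bool) (hs : s ≠ 0) (hx : x ∈ S)
    (hHt : Set.InjOn (Ht ε) S) (τ : ℝ) (hτ : 0 ≤ τ)
    (hT : ((Tri S f).card : ℝ) ≤ τ * S.card)
    (hL : (S.card : ℝ) ≤ 2 * (Low ε S (Ht ε x)).card) (z : ℝ × ℝ) (l : ℝ) (hl : 0 ≤ l) :
    l / 2 * ((Ch s ε S x z).card - 3 * MM s ε f S x z - 1) - l ^ 2 / 4 ≤
      ∑ u ∈ Ch s ε S x z, (ee S f u : ℝ) +
        (Ch s ε S x z).card * (6 + 24 * τ + 2 * ee S f x) := by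
  set Q := Ch s ε S x z with hQ
  have hQP : Q ⊆ Low ε S (Ht ε x) := Ch_sub z
  obtain ⟨H, hHQ, hadj, hcap, hcard⟩ := ear hS hs f hx hQP Q.card Q subset_rfl rfl (by
    rintro a b ⟨-, -, -, h⟩ c hc h1 h2
    exact absurd ⟨h1, h2⟩ (h c hc))
  have hHP := hHQ.trans hQP
  have hinj : Set.InjOn (ord s ε x) H := fun a ha b hb hab =>
    ord_inj_below hS (ε := ε) hs hx (hHP ha) (hHP hb) hab
  have hvis : ∀ a b, Adj s ε x H a b → Vis s ε x (Low ε S (Ht ε x)) a b := by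
    intro a b hab
    exact claimA hS hs hx (hHQ hab.1) (hHQ hab.2.1) hab.2.2.1 (hadj a b hab)
  set M := MM s ε f S x z with hM
  have hF1 : (F1 s ε f x Q Q).card = M := rfl
  have hF2 : (F2 s ε f x Q Q).card ≤ M := Finset.card_le_card (Finset.filter_subset _ _)
  -- balance
  have hbal : ∀ c : Bool, (H.filter (fun h => f h = c)).card ≤
      (H.filter (fun h => f h ≠ c)).card + M + 1 := by
    intro c
    have h1 := adj_count (H.filter (fun h => f h = c)) (H.filter (fun h => f h ≠ c)) (ord s ε x)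
      (fun a ha b hb hab => hinj (Finset.mem_filter.1 ha).1 (Finset.mem_filter.1 hb).1 hab)
    have h2 : (Cons (H.filter (fun h => f h = c)) (H.filter (fun h => f h ≠ c))
        (ord s ε x)).card ≤ M := by
      apply Finset.card_le_card
      intro q hq
      obtain ⟨hq1, hq2, hq3, hq4⟩ := Finset.mem_filter.1 hq
      obtain ⟨hq5, hq6⟩ := Finset.mem_product.1 hq1
      obtain ⟨a1, a2⟩ := Finset.mem_filter.1 hq5
      obtain ⟨b1, b2⟩ := Finset.mem_filter.1 hq6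
      refine Finset.mem_filter.2 ⟨Finset.mem_product.2 ⟨hHQ a1, hHQ b1⟩, hq2, a2.trans b2.symm, ?_⟩
      apply hadj
      refine ⟨a1, b1, hq2, ?_⟩
      intro e he hee
      by_cases hfe : f e = c
      · exact hq3 e (Finset.mem_filter.2 ⟨he, hfe⟩) hee
      · exact hq4 e (Finset.mem_filter.2 ⟨he, hfe⟩) hee
    omega
  have hst : ∀ u ∈ H, ((H.filter (fun h => ord s ε x u < ord s ε x h ∧ f h ≠ f u)).card : ℝ) ≤
      ee S f u + (6 + 24 * τ + 2 * ee S f x) := fun u hu =>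
    chain_star hS f hs hx hHt τ hτ hT hL hHP hvis hcap hu
  have hsum := Finset.sum_le_sum hst
  rw [Finset.sum_add_distrib, Finset.sum_const, nsmul_eq_mul] at hsum
  have hbi := bichrom f H (ord s ε x) hinj true
  have hbi' : ((H.filter (fun h => f h = true)).card : ℝ) * (H.filter (fun h => f h ≠ true)).card ≤
      ∑ u ∈ H, ((H.filter (fun h => ord s ε x u < ord s ε x h ∧ f h ≠ f u)).card : ℝ) := by
    exact_mod_cast hbi
  have b1 := hbal true
  have b2 := hbal false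
  have hcc : (H.filter (fun h => f h = false)).card = (H.filter (fun h => f h ≠ true)).card := by
    congr 1; apply Finset.filter_congr; intro q _; cases f q <;> simp
  have hcc' : (H.filter (fun h => f h ≠ false)).card = (H.filter (fun h => f h = true)).card := by
    congr 1; apply Finset.filter_congr; intro q _; cases f q <;> simp
  rw [hcc, hcc'] at b2
  set r := (H.filter (fun h => f h = true)).card with hr
  set b := (H.filter (fun h => f h ≠ true)).card with hb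
  have hrb : r + b = H.card := Finset.card_filter_add_card_filter_not _
  have b1' : (r : ℝ) ≤ b + (M + 1) := by exact_mod_cast b1
  have b2' : (b : ℝ) ≤ r + (M + 1) := by exact_mod_cast b2
  have hnum := num_rb (by positivity) (by positivity) b1' b2' hl
  have hrb' : (r : ℝ) + b = H.card := by exact_mod_cast hrb
  have hQH : (Q.card : ℝ) ≤ H.card + 2 * M := by
    have : Q.card ≤ H.card + 2 * M := by omega
    exact_mod_cast this
  have hHQc : (H.card : ℝ) ≤ Q.card := by exact_mod_cast Finset.card_le_card hHQ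
  have hsub : ∑ u ∈ H, (ee S f u : ℝ) ≤ ∑ u ∈ Q, (ee S f u : ℝ) :=
    Finset.sum_le_sum_of_subset_of_nonneg hHQ (fun _ _ _ => by positivity)
  have hΔ : 0 ≤ 6 + 24 * τ + 2 * (ee S f x : ℝ) := by positivity
  have h3 : (H.card : ℝ) * (6 + 24 * τ + 2 * ee S f x) ≤ Q.card * (6 + 24 * τ + 2 * ee S f x) :=
    mul_le_mul_of_nonneg_right hHQc hΔ
  have h4 : l / 2 * ((Q.card : ℝ) - 3 * M - 1) - l ^ 2 / 4 ≤
      (2 * l * ((r : ℝ) + b - (M + 1)) - l ^ 2) / 4 := by
    rw [hrb']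
    have : (Q.card : ℝ) - 3 * M - 1 ≤ H.card - (M + 1) := by linarith
    have := mul_le_mul_of_nonneg_left this (by linarith : 0 ≤ l / 2)
    linarith
  linarith

/-- the sum over all towers. -/
theorem towers (hS : GP S) (f : ℝ × ℝ → Bool) (hs : s ≠ 0) (hx : x ∈ S)
    (hHt : Set.InjOn (Ht ε) S) (τ : ℝ) (hτ : 0 ≤ τ)
    (hT : ((Tri S f).card : ℝ) ≤ τ * S.card)
    (hL : (S.card : ℝ) ≤ 2 * (Low ε S (Ht ε x)).card) (l : ℝ) (hl : 0 ≤ l)
    (Z : Finset (ℝ × ℝ)) (hZ : ∀ z ∈ Z, z ∈ S ∧ f z ≠ f x) (G : Finset (ℝ × ℝ))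
    (hG : ∀ p ∈ G, p ∈ Low ε S (Ht ε x) ∧ ∃ z ∈ Z, Par s ε S x p z) :
    l / 2 * (G.card - 3 * (ee S f x + ∑ z ∈ Z, (ee S f z : ℝ)) - Z.card) - Z.card * (l ^ 2 / 4) ≤
      3 * (τ * S.card) + S.card * (6 + 24 * τ + 2 * ee S f x) := by
  have h1 := Finset.sum_le_sum (fun z (_ : z ∈ Z) =>
    tower_bound hS f hs hx hHt τ hτ hT hL z l hl)
  have hdisj : ∀ z ∈ Z, ∀ z' ∈ Z, z ≠ z' → Disjoint (Ch s ε S x z) (Ch s ε S x z') := by
    intro z hz z' hz' hne
    rw [Finset.disjoint_left]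
    intro q hq hq'
    exact hne (Par_unique (Finset.mem_filter.1 hq).2 (Finset.mem_filter.1 hq').2)
  set U := Z.biUnion (fun z => Ch s ε S x z) with hU
  have hUS : U ⊆ S := by
    intro q hq
    obtain ⟨z, hz, hq⟩ := Finset.mem_biUnion.1 hq
    exact (mem_Low.1 (Ch_sub z hq)).1
  have hUc : U.card = ∑ z ∈ Z, (Ch s ε S x z).card := Finset.card_biUnion hdisj
  have hUe : ∑ u ∈ U, (ee S f u : ℝ) = ∑ z ∈ Z, ∑ u ∈ Ch s ε S x z, (ee S f u : ℝ) :=
    Finset.sum_biUnion hdisj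
  have hGU : G ⊆ U := by
    intro p hp
    obtain ⟨h1, z, hz, h2⟩ := hG p hp
    exact Finset.mem_biUnion.2 ⟨z, hz, Finset.mem_filter.2 ⟨h1, h2⟩⟩
  have hGc : (G.card : ℝ) ≤ U.card := by exact_mod_cast Finset.card_le_card hGU
  have hUS' : (U.card : ℝ) ≤ S.card := by exact_mod_cast Finset.card_le_card hUS
  have hUc' : (U.card : ℝ) = ∑ z ∈ Z, ((Ch s ε S x z).card : ℝ) := by exact_mod_cast hUc
  have hMM := sum_MM (ε := ε) hS hs f hx Z hZ
  have hMM' : ∑ z ∈ Z, (MM s ε f S x z : ℝ) ≤ ee S f x + ∑ z ∈ Z, (ee S f z : ℝ) := by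
    exact_mod_cast hMM
  have hee : ∑ u ∈ U, (ee S f u : ℝ) ≤ 3 * (τ * S.card) := by
    have h2 : ∑ u ∈ U, ee S f u ≤ ∑ u ∈ S, ee S f u := Finset.sum_le_sum_of_subset hUS
    rw [sum_ee] at h2
    have h3 : ∑ u ∈ U, (ee S f u : ℝ) ≤ 3 * (Tri S f).card := by exact_mod_cast h2
    linarith
  have hΔ : 0 ≤ 6 + 24 * τ + 2 * (ee S f x : ℝ) := by positivity
  rw [Finset.sum_add_distrib, Finset.sum_sub_distrib, ← Finset.mul_sum, Finset.sum_sub_distrib,
    Finset.sum_sub_distrib, ← Finset.mul_sum, ← Finset.sum_mul, ← hUe, ← hUc', Finset.sum_const,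
    Finset.sum_const, nsmul_eq_mul, nsmul_eq_mul] at h1
  have h5 : l / 2 * (G.card - 3 * (ee S f x + ∑ z ∈ Z, (ee S f z : ℝ)) - Z.card) ≤
      l / 2 * ((U.card : ℝ) - 3 * ∑ z ∈ Z, (MM s ε f S x z : ℝ) - Z.card * 1) := by
    apply mul_le_mul_of_nonneg_left _ (by linarith)
    linarith
  have h6 : (U.card : ℝ) * (6 + 24 * τ + 2 * ee S f x) ≤ S.card * (6 + 24 * τ + 2 * ee S f x) :=
    mul_le_mul_of_nonneg_right hUS' hΔ
  linarith

end tower

end Pool.Agent.Lib.MP_9ff0e7_co
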