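import Pool.Agent.Lib.MP_9ff0e7_co.Par

/-!
Towers: the children of one parent, their visible pairs and their concave chain.
-/

set_option autoImplicit false
open scoped Classical

namespace Pool.Agent.Lib.MP_9ff0e7_co

/-- sign bookkeeping. -/
structure Rel (x y z : ℝ) : Prop where
  yz : 0 < y → 0 < z → 0 < x
  yz' : y < 0 → z < 0 → x < 0
  xz : 0 < x → z < 0 → 0 < y
  xz' : x < 0 → 0 < z → y < 0
  xy : 0 < x → y < 0 → 0 < z
  xy' : x < 0 → 0 < y → z < 0

theorem Rel.mk' {A B C x y z : ℝ} (h : A * x = B * y + C * z) (hA : 0 < A) (hB : 0 < B)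
    (hC : 0 < C) : Rel x y z := by
  obtain ⟨h1, h2, h3, h4, h5, h6⟩ := comb h hA hB hC
  exact ⟨h1, h2, h3, h4, h5, h6⟩

section sig

variable {s ε : ℝ} {S : Finset (ℝ × ℝ)} {x a b c d : ℝ × ℝ}

theorem sgA (ha : a ∈ Low ε S (Ht ε x)) (hb : b ∈ Low ε S (Ht ε x)) (hc : c ∈ Low ε S (Ht ε x))
    (hd : d ∈ Low ε S (Ht ε x)) (hab : ord s ε x a < ord s ε x b)
    (hbc : ord s ε x b < ord s ε x c) (hcd : ord s ε x c < ord s ε x d) :
    Rel (D s a b d) (D s a c d) (D s a b c) :=
  Rel.mk' (I_a s a b c d x) ((ord_lt_below ha hc).1 (hab.trans hbc))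
    ((ord_lt_below ha hb).1 hab) ((ord_lt_below ha hd).1 ((hab.trans hbc).trans hcd))

theorem sgB (ha : a ∈ Low ε S (Ht ε x)) (hb : b ∈ Low ε S (Ht ε x)) (hc : c ∈ Low ε S (Ht ε x))
    (hd : d ∈ Low ε S (Ht ε x)) (hab : ord s ε x a < ord s ε x b)
    (hbc : ord s ε x b < ord s ε x c) (hcd : ord s ε x c < ord s ε x d) :
    Rel (D s a b d) (D s b c d) (D s a b c) :=
  Rel.mk' (I_b s a b c d x) ((ord_lt_below hb hc).1 hbc)
    ((ord_lt_below ha hb).1 hab) ((ord_lt_below hb hd).1 (hbc.trans hcd))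

theorem sgC (ha : a ∈ Low ε S (Ht ε x)) (hb : b ∈ Low ε S (Ht ε x)) (hc : c ∈ Low ε S (Ht ε x))
    (hd : d ∈ Low ε S (Ht ε x)) (hab : ord s ε x a < ord s ε x b)
    (hbc : ord s ε x b < ord s ε x c) (hcd : ord s ε x c < ord s ε x d) :
    Rel (D s a c d) (D s b c d) (D s a b c) :=
  Rel.mk' (I_c s a b c d x) ((ord_lt_below hb hc).1 hbc)
    ((ord_lt_below ha hc).1 (hab.trans hbc)) ((ord_lt_below hc hd).1 hcd)

theorem sgD (ha : a ∈ Low ε S (Ht ε x)) (hb : b ∈ Low ε S (Ht ε x)) (hc : c ∈ Low ε S (Ht ε x))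
    (hd : d ∈ Low ε S (Ht ε x)) (hab : ord s ε x a < ord s ε x b)
    (hbc : ord s ε x b < ord s ε x c) (hcd : ord s ε x c < ord s ε x d) :
    Rel (D s a c d) (D s b c d) (D s a b d) :=
  Rel.mk' (I_d s a b c d x) ((ord_lt_below hb hd).1 (hbc.trans hcd))
    ((ord_lt_below ha hd).1 ((hab.trans hbc).trans hcd)) ((ord_lt_below hc hd).1 hcd)

/-- non-degeneracy for points in increasing order. -/
theorem D_ne (hS : GP S) (hs : s ≠ 0) (ha : a ∈ Low ε S (Ht ε x)) (hb : b ∈ Low ε S (Ht ε x))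
    (hc : c ∈ Low ε S (Ht ε x)) (hab : ord s ε x a < ord s ε x b)
    (hbc : ord s ε x b < ord s ε x c) : D s a b c ≠ 0 := by
  apply hS.ne hs (mem_Low.1 ha).1 (mem_Low.1 hb).1 (mem_Low.1 hc).1
  · rintro rfl; exact lt_irrefl _ hab
  · rintro rfl; exact lt_irrefl _ (hab.trans hbc)
  · rintro rfl; exact lt_irrefl _ hbc

end sig

/-- the points between `a` and `b` from the set `Q` are all below the segment `a b`. -/
def Vis (s ε : ℝ) (x : ℝ × ℝ) (Q : Finset (ℝ × ℝ)) (a b : ℝ × ℝ) : Prop :=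
  ∀ c ∈ Q, ord s ε x a < ord s ε x c → ord s ε x c < ord s ε x b → 0 < D s a c b

/-- children of `z`. -/
noncomputable def Ch (s ε : ℝ) (S : Finset (ℝ × ℝ)) (x z : ℝ × ℝ) : Finset (ℝ × ℝ) :=
  (Low ε S (Ht ε x)).filter (fun p => Par s ε S x p z)

/-- Claim A. -/
theorem claimA {S : Finset (ℝ × ℝ)} (hS : GP S) {s ε : ℝ} (hs : s ≠ 0) {x : ℝ × ℝ} (hx : x ∈ S)
    {a b z : ℝ × ℝ} (ha : a ∈ Ch s ε S x z) (hb : b ∈ Ch s ε S x z)
    (_hab : ord s ε x a < ord s ε x b) (hvis : Vis s ε x (Ch s ε S x z) a b) :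
    Vis s ε x (Low ε S (Ht ε x)) a b := by
  set P := Low ε S (Ht ε x) with hP
  set g := ord s ε x with hg
  obtain ⟨haP, haz⟩ := Finset.mem_filter.1 ha
  obtain ⟨hbP, hbz⟩ := Finset.mem_filter.1 hb
  have hzP : z ∈ P := haz.1
  have gaz : g a < g z := (ord_lt_below haP hzP).2 haz.2.1
  have gbz : g b < g z := (ord_lt_below hbP hzP).2 hbz.2.1
  -- the parent condition in terms of the order
  have par_lt : ∀ p ∈ P, Par s ε S x p z → ∀ r ∈ P, g p < g r → g r < g z → 0 < D s p r z := by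
    intro p hp hpar r hr h1 h2
    have := hpar.2.2 r hr ((ord_lt_below hp hr).1 h1) (by rintro rfl; exact lt_irrefl _ h2)
    rw [D_swap']; linarith
  have par_gt : ∀ p ∈ P, Par s ε S x p z → ∀ r ∈ P, g z < g r → D s p z r < 0 := by
    intro p hp hpar r hr h1
    have h2 : g p < g z := (ord_lt_below hp hzP).2 hpar.2.1
    exact hpar.2.2 r hr ((ord_lt_below hp hr).1 (h2.trans h1)) (by rintro rfl; exact lt_irrefl _ h1)
  by_contra hcon
  unfold Vis at hcon
  push Not at hcon
  obtain ⟨c0, hc0P, hc01, hc02, hc03⟩ := hcon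
  have hne : (P.filter (fun c => g a < g c ∧ g c < g b ∧ D s a c b < 0)).Nonempty := by
    refine ⟨c0, Finset.mem_filter.2 ⟨hc0P, hc01, hc02, ?_⟩⟩
    exact lt_of_le_of_ne hc03 (D_ne hS hs haP hc0P hbP hc01 hc02)
  obtain ⟨c, hc, hmax⟩ := Finset.exists_max_image _ g hne
  obtain ⟨hcP, hac, hcb, hacb⟩ := Finset.mem_filter.1 hc
  have hacz : 0 < D s a c z := par_lt a haP haz c hcP hac (hcb.trans gbz)
  have hcbz : 0 < D s c b z := (sgB haP hcP hbP hzP hac hcb gbz).xz hacz hacb
  have hpar : Par s ε S x c z := by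
    refine ⟨hzP, (ord_lt_below hcP hzP).1 (hcb.trans gbz), ?_⟩
    intro r hr hcr hrz
    have gcr : g c < g r := (ord_lt_below hcP hr).2 hcr
    have key : ∀ {y : ℝ × ℝ}, 0 < D s c y z → D s c z y < 0 := by
      intro y hy; rw [D_swap']; linarith
    rcases lt_trichotomy (g r) (g b) with h1 | h1 | h1
    · -- c < r < b
      have harb : 0 < D s a r b := by
        by_contra hneg
        push Not at hneg
        have : D s a r b < 0 := lt_of_le_of_ne hneg (D_ne hS hs haP hr hbP (hac.trans gcr) h1)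
        have := hmax r (Finset.mem_filter.2 ⟨hr, hac.trans gcr, h1, this⟩)
        linarith
      have hcrb : 0 < D s c r b := (sgD haP hcP hr hbP hac gcr h1).xz harb hacb
      exact key ((sgA hcP hr hbP hzP gcr h1 gbz).yz hcbz hcrb)
    · have hrb : r = b := ord_inj_below hS hs hx hr hbP h1
      rw [hrb]; exact key hcbz
    · rcases lt_trichotomy (g r) (g z) with h2 | h2 | h2
      · have hbrz : 0 < D s b r z := par_lt b hbP hbz r hr h1 h2
        exact key ((sgD hcP hbP hr hzP hcb h1 h2).yz hbrz hcbz)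
      · exact absurd (ord_inj_below hS hs hx hr hzP h2) hrz
      · have hazr : D s a z r < 0 := par_gt a haP haz r hr h2
        exact (sgC haP hcP hzP hr hac (hcb.trans gbz) h2).xz' hazr hacz
  have hcQ : c ∈ Ch s ε S x z := Finset.mem_filter.2 ⟨hcP, hpar⟩
  have := hvis c hcQ hac hcb
  linarith

/-- the triangle of `x` and a visible pair is empty. -/
theorem vis_empty_x {S : Finset (ℝ × ℝ)} {s ε : ℝ} {x : ℝ × ℝ}
    {a b : ℝ × ℝ} (ha : a ∈ Low ε S (Ht ε x)) (hb : b ∈ Low ε S (Ht ε x))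
    (hab : ord s ε x a < ord s ε x b) (hvis : Vis s ε x (Low ε S (Ht ε x)) a b) :
    ∀ q ∈ S, ¬ In x a b q := by
  intro q hq hin
  obtain ⟨h1, h2, h3⟩ := hin.pos ((ord_lt_below ha hb).1 hab)
  have hqH : Ht ε q < Ht ε x := hin.ht_lt le_rfl (mem_Low.1 ha).2.le (mem_Low.1 hb).2
  have hqP : q ∈ Low ε S (Ht ε x) := mem_Low.2 ⟨hq, hqH⟩
  obtain ⟨-, -, k1, k2⟩ := hin.ord_between (below_prod ha hb) hab
  have := hvis q hqP k1 k2
  rw [D_swap'] at this
  linarith

/-- the triangle of the parent and a visible pair is empty. -/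
theorem vis_empty_z {S : Finset (ℝ × ℝ)} (hS : GP S) {s ε : ℝ} (hs : s ≠ 0) {x : ℝ × ℝ}
    (hx : x ∈ S) {a b z : ℝ × ℝ} (ha : a ∈ Ch s ε S x z) (hb : b ∈ Ch s ε S x z)
    (hab : ord s ε x a < ord s ε x b) (hvis : Vis s ε x (Low ε S (Ht ε x)) a b) :
    ∀ q ∈ S, ¬ In z a b q := by
  intro q hq hin
  obtain ⟨haP, haz⟩ := Finset.mem_filter.1 ha
  obtain ⟨hbP, hbz⟩ := Finset.mem_filter.1 hb
  have hzP := haz.1
  have gbz : ord s ε x b < ord s ε x z := (ord_lt_below hbP hzP).2 hbz.2.1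
  have hzab : 0 < D s z a b := by
    have h1 := haz.2.2 b hbP ((ord_lt_below haP hbP).1 hab) (by rintro rfl; exact lt_irrefl _ gbz)
    rw [D_cyc, D_swap']; linarith
  obtain ⟨h1, h2, h3⟩ := hin.pos hzab
  -- h1 : D z a q, h2 : D a b q, h3 : D b z q
  have hqH : Ht ε q < Ht ε x := hin.ht_lt (mem_Low.1 hzP).2.le (mem_Low.1 haP).2.le (mem_Low.1 hbP).2
  have hqP : q ∈ Low ε S (Ht ε x) := mem_Low.2 ⟨hq, hqH⟩
  have hqz : q ≠ z := by rintro rfl; rw [D_abb] at h3; exact lt_irrefl _ h3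
  have hqb : q ≠ b := by rintro rfl; rw [D_aba] at h3; exact lt_irrefl _ h3
  -- q is right of a
  have haq : 0 < D s x a q := by
    have hb1 := bary s x a z a b q
    have e1 : D s z q b = D s b z q := (D_cyc _ _ _ _).symm
    have e2 : D s x a a = 0 := D_abb _ _ _
    have e3 : 0 < D s q a b := by rw [D_cyc]; exact h2
    rw [e1, e2] at hb1
    have hxz : 0 < D s x a z := haz.2.1
    have hxb : 0 < D s x a b := (ord_lt_below haP hbP).1 hab
    have : 0 < D s z a b * D s x a q := by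
      rw [hb1]
      have := mul_pos e3 hxz
      have := mul_pos h1 hxb
      linarith
    exact (mul_pos_iff_of_pos_left hzab).1 this
  -- q is left of b
  have hbq : ¬ 0 < D s x b q := by
    intro h
    have := hbz.2.2 q hqP h hqz
    linarith
  have g1 : ord s ε x a < ord s ε x q := (ord_lt_below haP hqP).2 haq
  have g2 : ord s ε x q ≤ ord s ε x b := by
    by_contra hcon; push Not at hcon
    exact hbq ((ord_lt_below hbP hqP).1 hcon)
  have g3 : ord s ε x q ≠ ord s ε x b := fun h => hqb (ord_inj_below hS hs hx hqP hbP h)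
  have := hvis q hqP g1 (lt_of_le_of_ne g2 g3)
  rw [D_swap'] at this
  linarith

/-- consecutive elements of `C`. -/
def Adj (s ε : ℝ) (x : ℝ × ℝ) (C : Finset (ℝ × ℝ)) (a b : ℝ × ℝ) : Prop :=
  a ∈ C ∧ b ∈ C ∧ ord s ε x a < ord s ε x b ∧
    ∀ c ∈ C, ¬ (ord s ε x a < ord s ε x c ∧ ord s ε x c < ord s ε x b)

/-- a cup triple in `C` gives a consecutive cup triple. -/
theorem local_cup {S : Finset (ℝ × ℝ)} (hS : GP S) {s ε : ℝ} (hs : s ≠ 0) {x : ℝ × ℝ}
    {C : Finset (ℝ × ℝ)} (hC : C ⊆ Low ε S (Ht ε x)) :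
    ∀ n : ℕ, ∀ a ∈ C, ∀ b ∈ C, ∀ c ∈ C, ord s ε x a < ord s ε x b → ord s ε x b < ord s ε x c →
      0 < D s a b c →
      (C.filter (fun e => ord s ε x a < ord s ε x e ∧ ord s ε x e < ord s ε x c)).card = n →
      ∃ a' b' c', Adj s ε x C a' b' ∧ Adj s ε x C b' c' ∧ 0 < D s a' b' c' := by
  intro n
  induction n using Nat.strong_induction_on with
  | _ n ih =>
  intro a ha b hb c hc hab hbc hD hn
  -- monotonicity of the count
  have hcount : ∀ a' c' : ℝ × ℝ, ord s ε x a ≤ ord s ε x a' → ord s ε x c' ≤ ord s ε x c →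
      ∀ e ∈ C, ord s ε x a < ord s ε x e → ord s ε x e < ord s ε x c →
      ¬ (ord s ε x a' < ord s ε x e ∧ ord s ε x e < ord s ε x c') →
      (C.filter (fun e => ord s ε x a' < ord s ε x e ∧ ord s ε x e < ord s ε x c')).card < n := by
    intro a' c' h1 h2 e he h3 h4 h5
    rw [← hn]
    apply Finset.card_lt_card
    rw [Finset.ssubset_iff_of_subset]
    · exact ⟨e, Finset.mem_filter.2 ⟨he, h3, h4⟩, fun h => h5 (Finset.mem_filter.1 h).2⟩
    · intro y hy
      obtain ⟨hy1, hy2, hy3⟩ := Finset.mem_filter.1 hy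
      exact Finset.mem_filter.2 ⟨hy1, by linarith, by linarith⟩
  by_cases h1 : ∃ d ∈ C, ord s ε x a < ord s ε x d ∧ ord s ε x d < ord s ε x b
  · obtain ⟨d, hd, had, hdb⟩ := h1
    by_cases h2 : 0 < D s a d b
    · exact ih _ (hcount a b le_rfl hbc.le b hb hab hbc (by rintro ⟨-, h⟩; exact lt_irrefl _ h))
        a ha d hd b hb had hdb h2 rfl
    · have h3 : D s a d b < 0 :=
        lt_of_le_of_ne (not_lt.1 h2) (D_ne hS hs (hC ha) (hC hd) (hC hb) had hdb)
      have h4 : 0 < D s d b c := (sgC (hC ha) (hC hd) (hC hb) (hC hc) had hdb hbc).xz hD h3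
      exact ih _ (hcount d c had.le le_rfl d hd had (hdb.trans hbc)
        (by rintro ⟨h, -⟩; exact lt_irrefl _ h)) d hd b hb c hc hdb hbc h4 rfl
  · by_cases h2 : ∃ d ∈ C, ord s ε x b < ord s ε x d ∧ ord s ε x d < ord s ε x c
    · obtain ⟨d, hd, hbd, hdc⟩ := h2
      by_cases h3 : 0 < D s a b d
      · exact ih _ (hcount a d le_rfl hdc.le d hd (hab.trans hbd) hdc
          (by rintro ⟨-, h⟩; exact lt_irrefl _ h)) a ha b hb d hd hab hbd h3 rfl
      · have h4 : D s a b d < 0 :=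
          lt_of_le_of_ne (not_lt.1 h3) (D_ne hS hs (hC ha) (hC hb) (hC hd) hab hbd)
        have h5 : 0 < D s b d c := (sgB (hC ha) (hC hb) (hC hd) (hC hc) hab hbd hdc).xz hD h4
        exact ih _ (hcount b c hab.le le_rfl b hb hab hbc
          (by rintro ⟨h, -⟩; exact lt_irrefl _ h)) b hb d hd c hc hbd hdc h5 rfl
    · push Not at h1 h2
      exact ⟨a, b, c, ⟨ha, hb, hab, fun e he h => absurd h.2 (not_lt.2 (h1 e he h.1))⟩,
        ⟨hb, hc, hbc, fun e he h => absurd h.2 (not_lt.2 (h2 e he h.1))⟩, hD⟩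

/-- monochromatic visible pairs inside `C`. -/
noncomputable def F1 (s ε : ℝ) (f : ℝ × ℝ → Bool) (x : ℝ × ℝ) (Q C : Finset (ℝ × ℝ)) :
    Finset ((ℝ × ℝ) × (ℝ × ℝ)) :=
  (C ×ˢ C).filter (fun q => ord s ε x q.1 < ord s ε x q.2 ∧ f q.1 = f q.2 ∧
    Vis s ε x Q q.1 q.2)

/-- the ones which are not consecutive. -/
noncomputable def F2 (s ε : ℝ) (f : ℝ × ℝ → Bool) (x : ℝ × ℝ) (Q C : Finset (ℝ × ℝ)) :
    Finset ((ℝ × ℝ) × (ℝ × ℝ)) :=
  (F1 s ε f x Q C).filter (fun q => ∃ r ∈ C, ord s ε x q.1 < ord s ε x r ∧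
    ord s ε x r < ord s ε x q.2)

theorem ear {S : Finset (ℝ × ℝ)} (hS : GP S) {s ε : ℝ} (hs : s ≠ 0) (f : ℝ × ℝ → Bool)
    {x : ℝ × ℝ} (hx : x ∈ S) {Q : Finset (ℝ × ℝ)} (hQ : Q ⊆ Low ε S (Ht ε x)) :
    ∀ n : ℕ, ∀ C ⊆ Q, C.card = n → (∀ a b, Adj s ε x C a b → Vis s ε x Q a b) →
      ∃ H ⊆ C, (∀ a b, Adj s ε x H a b → Vis s ε x Q a b) ∧
        (∀ a ∈ H, ∀ b ∈ H, ∀ c ∈ H, ord s ε x a < ord s ε x b → ord s ε x b < ord s ε x c →
          D s a b c < 0) ∧
        C.card ≤ H.card + ((F1 s ε f x Q C).card + (F2 s ε f x Q C).card) := by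
  intro n
  induction n with
  | zero =>
    intro C hC hn hadj
    exact ⟨C, subset_rfl, hadj, by
      have : C = ∅ := Finset.card_eq_zero.1 hn
      intro a ha; rw [this] at ha; simp at ha, by omega⟩
  | succ n ih =>
    intro C hC hn hadj
    by_cases hcup : ∃ a ∈ C, ∃ b ∈ C, ∃ c ∈ C, ord s ε x a < ord s ε x b ∧
        ord s ε x b < ord s ε x c ∧ 0 < D s a b c
    swap
    · refine ⟨C, subset_rfl, hadj, ?_, by omega⟩
      intro a ha b hb c hc hab hbc
      push Not at hcup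
      exact lt_of_le_of_ne (hcup a ha b hb c hc hab hbc)
        (D_ne hS hs (hQ (hC ha)) (hQ (hC hb)) (hQ (hC hc)) hab hbc)
    · obtain ⟨a0, ha0, b0, hb0, c0, hc0, hab0, hbc0, hD0⟩ := hcup
      obtain ⟨a, b, c, hab, hbc, hD⟩ := local_cup hS hs (hC.trans hQ) _ a0 ha0 b0 hb0 c0 hc0
        hab0 hbc0 hD0 rfl
      have haC := hab.1
      have hbC := hab.2.1
      have hcC := hbc.2.1
      have gab := hab.2.2.1
      have gbc := hbc.2.2.1
      have hinj := ord_inj_below hS (ε := ε) hs hx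
      have hvac : Vis s ε x Q a c := by
        intro r hr har hrc
        have hrP := hQ hr
        rcases lt_trichotomy (ord s ε x r) (ord s ε x b) with h | h | h
        · have h1 := hadj a b hab r hr har h
          exact (sgA (hQ (hC haC)) hrP (hQ (hC hbC)) (hQ (hC hcC)) har h gbc).yz hD h1
        · have : r = b := hinj hrP (hQ (hC hbC)) h
          rw [this]; exact hD
        · have h1 := hadj b c hbc r hr h hrc
          exact (sgD (hQ (hC haC)) (hQ (hC hbC)) hrP (hQ (hC hcC)) gab h hrc).yz h1 hD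
      have hadj' : ∀ p q, Adj s ε x (C.erase b) p q → Vis s ε x Q p q := by
        intro p q hpq
        obtain ⟨hp, hq, gpq, hno⟩ := hpq
        have hp2 := Finset.mem_erase.1 hp
        have hq2 := Finset.mem_erase.1 hq
        by_cases hb : ord s ε x p < ord s ε x b ∧ ord s ε x b < ord s ε x q
        · have hpa : p = a := by
            apply hinj (hQ (hC hp2.2)) (hQ (hC haC))
            apply le_antisymm
            · by_contra hcon; push Not at hcon
              exact hab.2.2.2 p hp2.2 ⟨hcon, hb.1⟩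
            · by_contra hcon; push Not at hcon
              exact hno a (Finset.mem_erase.2 ⟨by rintro rfl; exact lt_irrefl _ gab, haC⟩)
                ⟨hcon, gab.trans hb.2⟩
          have hqc : q = c := by
            apply hinj (hQ (hC hq2.2)) (hQ (hC hcC))
            apply le_antisymm
            · by_contra hcon; push Not at hcon
              exact hno c (Finset.mem_erase.2 ⟨by rintro rfl; exact lt_irrefl _ gbc, hcC⟩)
                ⟨hb.1.trans gbc, hcon⟩
            · by_contra hcon; push Not at hcon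
              exact hbc.2.2.2 q hq2.2 ⟨hb.2, hcon⟩
          rw [hpa, hqc]; exact hvac
        · apply hadj
          refine ⟨hp2.2, hq2.2, gpq, ?_⟩
          intro r hr hr2
          by_cases hrb : r = b
          · rw [hrb] at hr2; exact hb hr2
          · exact hno r (Finset.mem_erase.2 ⟨hrb, hr⟩) hr2
      obtain ⟨H, hHC, hH1, hH2, hH3⟩ := ih (C.erase b) ((Finset.erase_subset _ _).trans hC)
        (by rw [Finset.card_erase_of_mem hbC, hn]; rfl) hadj'
      refine ⟨H, hHC.trans (Finset.erase_subset _ _), hH1, hH2, ?_⟩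
      have s1 : F1 s ε f x Q (C.erase b) ⊆ F1 s ε f x Q C := by
        intro q hq
        obtain ⟨h1, h2⟩ := Finset.mem_filter.1 hq
        obtain ⟨h3, h4⟩ := Finset.mem_product.1 h1
        exact Finset.mem_filter.2 ⟨Finset.mem_product.2
          ⟨(Finset.mem_erase.1 h3).2, (Finset.mem_erase.1 h4).2⟩, h2⟩
      have s2 : F2 s ε f x Q (C.erase b) ⊆ F2 s ε f x Q C := by
        intro q hq
        obtain ⟨h1, r, hr, h2⟩ := Finset.mem_filter.1 hq
        exact Finset.mem_filter.2 ⟨s1 h1, r, (Finset.mem_erase.1 hr).2, h2⟩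
      have hstrict : (F1 s ε f x Q (C.erase b)).card + (F2 s ε f x Q (C.erase b)).card + 1 ≤
          (F1 s ε f x Q C).card + (F2 s ε f x Q C).card := by
        have c1 := Finset.card_le_card s1
        have c2 := Finset.card_le_card s2
        by_cases h1 : f a = f b
        · have : (F1 s ε f x Q (C.erase b)).card < (F1 s ε f x Q C).card := by
            apply Finset.card_lt_card
            rw [Finset.ssubset_iff_of_subset s1]
            refine ⟨(a, b), Finset.mem_filter.2 ⟨Finset.mem_product.2 ⟨haC, hbC⟩, gab, h1,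
              hadj a b hab⟩, ?_⟩
            intro h
            have := (Finset.mem_product.1 (Finset.mem_filter.1 h).1).2
            exact (Finset.mem_erase.1 this).1 rfl
          omega
        · by_cases h2 : f b = f c
          · have : (F1 s ε f x Q (C.erase b)).card < (F1 s ε f x Q C).card := by
              apply Finset.card_lt_card
              rw [Finset.ssubset_iff_of_subset s1]
              refine ⟨(b, c), Finset.mem_filter.2 ⟨Finset.mem_product.2 ⟨hbC, hcC⟩, gbc, h2,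
                hadj b c hbc⟩, ?_⟩
              intro h
              have := (Finset.mem_product.1 (Finset.mem_filter.1 h).1).1
              exact (Finset.mem_erase.1 this).1 rfl
            omega
          · have h3 : f a = f c := by
              revert h1 h2; cases f a <;> cases f b <;> cases f c <;> simp
            have : (F2 s ε f x Q (C.erase b)).card < (F2 s ε f x Q C).card := by
              apply Finset.card_lt_card
              rw [Finset.ssubset_iff_of_subset s2]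
              refine ⟨(a, c), Finset.mem_filter.2 ⟨Finset.mem_filter.2
                ⟨Finset.mem_product.2 ⟨haC, hcC⟩, gab.trans gbc, h3, hvac⟩, b, hbC, gab, gbc⟩, ?_⟩
              intro h
              obtain ⟨-, r, hr, hr1, hr2⟩ := Finset.mem_filter.1 h
              obtain ⟨hrb, hrC⟩ := Finset.mem_erase.1 hr
              simp only at hr1 hr2
              rcases lt_trichotomy (ord s ε x r) (ord s ε x b) with h4 | h4 | h4
              · exact hab.2.2.2 r hrC ⟨hr1, h4⟩
              · exact hrb (hinj (hQ (hC hrC)) (hQ (hC hbC)) h4)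
              · exact hbc.2.2.2 r hrC ⟨h4, hr2⟩
            omega
      have : (C.erase b).card + 1 = C.card := Finset.card_erase_add_one hbC
      omega

end Pool.Agent.Lib.MP_9ff0e7_co
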